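import Pool.Agent.U222.HC.Fin

/-!
# The Hodge conjecture for products with coverings: the theorem
-/

set_option autoImplicit false

open CategoryTheory AlgebraicGeometry TensorProduct Limits

universe u

namespace Pool.Agent.U222.HC

open Pool.Agent.H914 Pool.Agent.H914.VarClass Pool.Agent.H914.VarClass.Obj Pool.Agent.Y121.AHS

variable {k : Type u} [Field k] {𝒱 : VarClass k} {ops : CycleOps 𝒱} (T : HodgeTheory ops)
  {X Z : 𝒱.Obj}

lemma isAbove_iff {m : ℤ} {x : HL T.W ℂ X} : IsAbove T m x ↔ x ∈ I.above T X m := by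
  constructor
  · intro h
    induction h using Submodule.span_induction with
    | mem y hy =>
      obtain ⟨p, q, hpq, hy⟩ := hy
      exact Submodule.mem_iSup_of_mem ⟨(p, q), hpq⟩ hy
    | zero => exact Submodule.zero_mem _
    | add x y _ _ hx hy => exact Submodule.add_mem _ hx hy
    | smul z x _ hx => exact Submodule.smul_mem _ _ hx
  · intro h
    induction h using Submodule.iSup_induction' with
    | mem r y hy => exact Submodule.subset_span ⟨r.1.1, r.1.2, r.2, hy⟩
    | zero => exact Submodule.zero_mem _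
    | add x y _ _ hx hy => exact Submodule.add_mem _ hx hy

lemma isBelow_iff {m : ℤ} {x : HL T.W ℂ X} : IsBelow T m x ↔ x ∈ I.below T X m := by
  constructor
  · intro h
    induction h using Submodule.span_induction with
    | mem y hy =>
      obtain ⟨p, q, hpq, hy⟩ := hy
      exact Submodule.mem_iSup_of_mem ⟨(p, q), hpq⟩ hy
    | zero => exact Submodule.zero_mem _
    | add x y _ _ hx hy => exact Submodule.add_mem _ hx hy
    | smul z x _ hx => exact Submodule.smul_mem _ _ hx
  · intro h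
    induction h using Submodule.iSup_induction' with
    | mem r y hy => exact Submodule.subset_span ⟨r.1.1, r.1.2, r.2, hy⟩
    | zero => exact Submodule.zero_mem _
    | add x y _ _ hx hy => exact Submodule.add_mem _ hx hy

lemma isTrivial_iff {G : Type} [AddCommGroup G] (χ : Chr G) :
    χ.IsTrivial ↔ (show AddChar G ℂ from χ) = 1 := by
  constructor
  · intro h
    exact DFunLike.ext _ _ fun g => (h g).trans (AddChar.one_apply g).symm
  · intro h g
    exact (DFunLike.congr_fun h g).trans (AddChar.one_apply g)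

lemma isSystem_int {n : ℕ} {A : Fam 𝒱 n} {m : ∀ i, (A i).Ch → ℤ} (h : IsSystem T A m) :
    I.IsSystem T A m := by
  refine ⟨fun i h1 => ?_, h.invariants, fun i χ x hχ hx => ?_⟩
  · obtain ⟨x, hx⟩ := h.nontrivial i
    exact hx (by rw [← one_mul x, h1, zero_mul])
  · exact (isAbove_iff T).1 (h.types i χ x (fun h => hχ ((isTrivial_iff χ).1 h)) hx)

lemma isExtreme_int {n : ℕ} {A : Fam 𝒱 n} {m : ∀ i, (A i).Ch → ℤ} {M : ℤ}
    (h : IsExtreme A m M) : I.IsExtreme A m M := by
  intro J hJ χ hχ
  exact h J hJ χ fun i hi h1 => hχ i hi ((isTrivial_iff (χ i)).1 h1)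

lemma isExtreme_of_coprime {n : ℕ} {A : Fam 𝒱 n} {m : ∀ i, (A i).Ch → ℤ} {M : ℤ} (hM : 0 < M)
    (h : IsCoprimeExtreme A m M) : I.IsExtreme A m M :=
  I.extreme_of_coprime A m M hM h.1 fun i χ hχ => h.2 i χ fun h1 => hχ ((isTrivial_iff χ).1 h1)

lemma isUnrelated_int {N : ℕ} {M : ℤ} (h : IsUnrelated T N M Z) : I.IsUnrelated T N M Z := by
  intro U hU hb
  rw [eq_bot_iff]
  intro x hx
  exact h U ⟨hU.rational, hU.hodge⟩ (fun y hy => (isBelow_iff T).2 (hb hy)) x hx

lemma isSum_int {w : ℕ} {c : T.W.H (X.prod Z)} (h : I.IsSumOfProducts T X Z w c) :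
    IsSumOfProducts T X Z w c := by
  classical
  obtain ⟨r, j, a, b, hab, rfl⟩ := h
  have h1 : ∀ s : Finset (Fin r), IsSumOfProducts T X Z w
      (∑ t ∈ s, T.W.map (fst X Z) (T.W.cl X (a t)) * T.W.map (snd X Z) (b t)) := by
    intro s
    induction s using Finset.induction_on with
    | empty => rw [Finset.sum_empty]; exact IsSumOfProducts.zero
    | insert t s ht ih =>
      rw [Finset.sum_insert ht]
      exact IsSumOfProducts.add (IsSumOfProducts.prod (Nat.add_sub_cancel' (hab t).1)
        (hab t).2.1 (hab t).2.2) ih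
  exact h1 Finset.univ

/-- **The main theorem.** -/
theorem main {n : ℕ} (A : Fam 𝒱 n) (m : ∀ i, (A i).Ch → ℤ) (M : ℤ) (hM : 0 < M)
    (h : IsSystem T A m) (hE : IsExtreme A m M ∨ IsCoprimeExtreme A m M) (N : ℕ)
    (hN : ∀ i, (A i).order ∣ N) :
    HodgeConjecture T (product n A) ∧
    ∀ Z : 𝒱.Obj, IsOfLevelLess T M Z ∨ IsUnrelated T N M Z →
      (∀ w c, IsHodge T ((product n A).prod Z) w c → IsSumOfProducts T (product n A) Z w c) ∧
      (HodgeConjecture T ((product n A).prod Z) ↔ HodgeConjecture T Z) := by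
  obtain ⟨h1, h2⟩ := I.main T A m M hM (isSystem_int T h) N hN
    (hE.elim isExtreme_int (isExtreme_of_coprime hM))
  refine ⟨h1, fun Z hZ => ?_⟩
  obtain ⟨h3, h4⟩ := h2 Z (hZ.imp id (isUnrelated_int T))
  exact ⟨fun w c hc => isSum_int T (h3 w c hc), h4⟩

end Pool.Agent.U222.HC
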