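import Pool.Agent.Y121.AHS.Ext

/-!
# Automorphisms of the complex numbers acting on the extension of a rational vector space
-/

set_option autoImplicit false

open TensorProduct

namespace Pool.Agent.U222.HC

open Pool.Agent.Y121.AHS

/-- The element `x` of the `K`-algebra `A` is a linear combination of elements of `s`. -/
def InSpan (K : Type) {A : Type} [Field K] [Ring A] [Algebra K A] (s : Set A) (x : A) : Prop :=
  x ∈ Submodule.span K s

section

variable {K A : Type} [Field K] [Algebra K ℂ] [Ring A] [Algebra K A]

/-- All elements of the field `K` are rational numbers. -/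
def IsRational (K : Type) [Field K] : Prop := ∀ r : K, ∃ q : ℚ, (q : K) = r

/-- The automorphism `σ` of `ℂ`, as a linear map over the field `K` of the rational numbers. -/
noncomputable def autK (h : IsRational K) (σ : ℂ ≃+* ℂ) : ℂ →ₗ[K] ℂ where
  toFun z := σ z
  map_add' := map_add _
  map_smul' r z := by
    obtain ⟨q, rfl⟩ := h r
    rw [RingHom.id_apply, Algebra.smul_def, Algebra.smul_def, map_mul, map_ratCast, map_ratCast]

/-- The action `z ⊗ a ↦ σ z ⊗ a` of the automorphism `σ` of `ℂ`. -/
noncomputable def extAut (h : IsRational K) (σ : ℂ ≃+* ℂ) (x : Ext K ℂ A) : Ext K ℂ A :=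
  TensorProduct.map (autK h σ) (LinearMap.id : A →ₗ[K] A) (show ℂ ⊗[K] A from x)

end

end Pool.Agent.U222.HC
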