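import Pool.Agent.Y121.AHS.Defs
import Pool.Agent.U222.HC.Gal

/-!
# The Hodge conjecture for products with coverings: definitions

In the intended use `k` is the field of complex numbers, `𝒱` is the class of all smooth projective
varieties over `k`, and `T` is the Hodge theory `X ↦ H(X, ℚ)`.
-/

set_option autoImplicit false

open CategoryTheory AlgebraicGeometry TensorProduct

universe u

namespace Pool.Agent.U222.HC

open Pool.Agent.H914 Pool.Agent.H914.VarClass Pool.Agent.H914.VarClass.Obj Pool.Agent.Y121.AHS

variable {k : Type u} [Field k] {𝒱 : VarClass k} {ops : CycleOps 𝒱}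

section characters

variable {G : Type} [AddCommGroup G]

/-- The characters of the abelian group `G` (written additively). -/
def Chr (G : Type) [AddCommGroup G] : Type := AddChar G ℂ

/-- The value of a character. -/
def Chr.val (χ : Chr G) (g : G) : ℂ := (show AddChar G ℂ from χ) g

/-- The character is trivial. -/
def Chr.IsTrivial (χ : Chr G) : Prop := ∀ g, χ.val g = 1

/-- The power `χ ^ u` of a character. -/
noncomputable def Chr.pow (χ : Chr G) (u : ℕ) : Chr G := (show AddChar G ℂ from χ) ^ u

end characters

section actions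

/-- A variety `X` with an action of a finite abelian group `G` (written additively). -/
structure GVar (𝒱 : VarClass k) where
  /-- the variety -/
  X : 𝒱.Obj
  /-- the group -/
  G : Type
  [group : AddCommGroup G]
  [finite : Fintype G]
  /-- the automorphism given by an element of the group -/
  act : G → (X ⟶ X)
  act_zero : act 0 = 𝟙 X
  act_add : ∀ g h, act (g + h) = act g ≫ act h

attribute [instance] GVar.group GVar.finite

/-- The order of the group. -/
def GVar.order (A : GVar 𝒱) : ℕ := Fintype.card A.G

/-- The characters of the group. -/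
abbrev GVar.Ch (A : GVar 𝒱) : Type := Chr A.G

/-- The finite sequences `X_0, …, X_n` of varieties with group actions. -/
abbrev Fam (𝒱 : VarClass k) (n : ℕ) : Type _ := Fin (n + 1) → GVar 𝒱

/-- The product `X_0 × (X_1 × (⋯ × X_n))`. -/
noncomputable def product : ∀ (n : ℕ), Fam 𝒱 n → 𝒱.Obj
  | 0, A => (A 0).X
  | n + 1, A => (A 0).X.prod (product n fun i => A i.succ)

end actions

section classes

variable (T : HodgeTheory ops) {X : 𝒱.Obj}

/-- The rational class `x` is a linear combination of classes of algebraic cycles. -/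
def IsAlgebraic (x : T.W.H X) : Prop :=
  InSpan T.W.K {c | ∃ (j : ℕ) (z : X.Cycles), X.IsCyc j z ∧ T.W.cl X z = c} x

/-- The complex class `x` is a linear combination of the classes `y` with the property `P`. -/
def IsCombination (P : HL T.W ℂ X → Prop) (x : HL T.W ℂ X) : Prop :=
  x ∈ Submodule.span ℂ {y | P y}

/-- The class `x` is a sum of classes of types `(p, q)` with `p - q ≥ m`. -/
def IsAbove (m : ℤ) (x : HL T.W ℂ X) : Prop :=
  IsCombination T (fun y => ∃ p q, m ≤ p - q ∧ IsType T.pq p q y) x

/-- The class `x` is a sum of classes of types `(p, q)` with `p - q ≤ -m`. -/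
def IsBelow (m : ℤ) (x : HL T.W ℂ X) : Prop :=
  IsCombination T (fun y => ∃ p q, p - q ≤ -m ∧ IsType T.pq p q y) x

/-- The class `x` is an eigenvector of the group with the character `χ`. -/
def IsEigenvector (A : GVar 𝒱) (χ : A.Ch) (x : HL T.W ℂ A.X) : Prop :=
  ∀ g, mapL (A.act g) x = smL (χ.val g) x

end classes

section substructures

variable (T : HodgeTheory ops) {X : 𝒱.Obj}

/-- The action `z ⊗ c ↦ σ z ⊗ c` of the automorphism `σ` of `ℂ` on the cohomology with complex
coefficients. -/
noncomputable def conj (σ : ℂ ≃+* ℂ) (x : HL T.W ℂ X) : HL T.W ℂ X := extAut T.rat σ x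

/-- The subspaces of `H(X, ℂ)`. -/
def Sub (T : HodgeTheory ops) (X : 𝒱.Obj) : Type := Submodule ℂ (HL T.W ℂ X)

/-- The class `x` belongs to the subspace `U`. -/
def Has (U : Sub T X) (x : HL T.W ℂ X) : Prop :=
  x ∈ (show Submodule ℂ (HL T.W ℂ X) from U)

/-- The subspace `U` of `H(X, ℂ)` is a Hodge substructure of `H(X)` over the field `F = ℚ(e ^ (2πi/N))`:
it is defined over `F` (stable under the automorphisms of `ℂ` that fix the `N`-th roots of unity),
and all its conjugates `σ U` are spanned by classes of pure types. -/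
structure IsSubstructure (N : ℕ) (U : Sub T X) : Prop where
  rational : ∀ σ : ℂ ≃+* ℂ, (∀ z : ℂ, z ^ N = 1 → σ z = z) → ∀ x, Has T U x → Has T U (conj T σ x)
  hodge : ∀ (σ : ℂ ≃+* ℂ) (x), Has T U x → IsCombination T
    (fun y => (∃ p q, IsType T.pq p q y) ∧ ∃ x', Has T U x' ∧ conj T σ x' = y) (conj T σ x)

/-- There is no nonzero Hodge substructure of `H(Z)` over the field `ℚ(e ^ (2πi/N))` all of whose
types `(p, q)` satisfy `p - q ≤ -M`. -/
def IsUnrelated (N : ℕ) (M : ℤ) (Z : 𝒱.Obj) : Prop :=
  ∀ U : Sub T Z, IsSubstructure T N U → (∀ x, Has T U x → IsBelow T M x) → ∀ x, Has T U x → x = 0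

end substructures

/-- The Hodge conjecture for `X`: every Hodge class on `X` is the class of an algebraic cycle (with
rational coefficients). -/
def HodgeConjecture (T : HodgeTheory ops) (X : 𝒱.Obj) : Prop :=
  ∀ (j : ℕ) (c : T.W.H X), IsHodge T X j c → ∃ z, X.IsCyc j z ∧ T.W.cl X z = c

/-- The class `c` on `X × Z` is a sum of products of classes of algebraic cycles on `X`, of
codimensions `j`, and of Hodge classes on `Z` of degrees `2 (w - j)`. -/
inductive IsSumOfProducts (T : HodgeTheory ops) (X Z : 𝒱.Obj) (w : ℕ) : T.W.H (X.prod Z) → Prop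
  | zero : IsSumOfProducts T X Z w 0
  | add {c d : T.W.H (X.prod Z)} : IsSumOfProducts T X Z w c → IsSumOfProducts T X Z w d →
      IsSumOfProducts T X Z w (c + d)
  | prod {j l : ℕ} {a : X.Cycles} {b : T.W.H Z} : j + l = w → X.IsCyc j a → IsHodge T Z l b →
      IsSumOfProducts T X Z w (T.W.map (fst X Z) (T.W.cl X a) * T.W.map (snd X Z) b)

end Pool.Agent.U222.HC
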