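import Pool.Agent.U222.HC.Typ

/-!
# Eigenvectors of finite abelian groups and their conjugates
-/

set_option autoImplicit false

open CategoryTheory AlgebraicGeometry TensorProduct Limits

universe u

namespace Pool.Agent.U222.HC.I

open Pool.Agent.H914 Pool.Agent.H914.VarClass Pool.Agent.H914.VarClass.Obj Pool.Agent.Y121.AHS

variable {k : Type u} [Field k] {𝒱 : VarClass k} {ops : CycleOps 𝒱} (T : HodgeTheory ops)
  {X Y Z W : 𝒱.Obj}

lemma prod_ext {f g : W ⟶ X.prod Y} (h1 : f ≫ fst X Y = g ≫ fst X Y)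
    (h2 : f ≫ snd X Y = g ≫ snd X Y) : f = g := by
  refine SmVar.Hom.ext (pullback.hom_ext ?_ ?_)
  · exact congrArg SmVar.Hom.hom h1
  · exact congrArg SmVar.Hom.hom h2

/-- The product of two morphisms. -/
noncomputable def pmap (f : X ⟶ Y) (g : Z ⟶ W) : X.prod Z ⟶ Y.prod W :=
  lift (fst X Z ≫ f) (snd X Z ≫ g)

lemma pmap_id : pmap (𝟙 X) (𝟙 Z) = 𝟙 (X.prod Z) := by
  refine prod_ext ?_ ?_
  · rw [pmap, lift_fst, Category.comp_id, Category.id_comp]
  · rw [pmap, lift_snd, Category.comp_id, Category.id_comp]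

lemma pmap_comp {X' Z' : 𝒱.Obj} (f : X ⟶ Y) (g : Z ⟶ W) (f' : X' ⟶ X) (g' : Z' ⟶ Z) :
    pmap (f' ≫ f) (g' ≫ g) = pmap f' g' ≫ pmap f g := by
  refine prod_ext ?_ ?_
  · rw [pmap, pmap, pmap, lift_fst, Category.assoc, lift_fst, lift_fst_assoc, Category.assoc]
  · rw [pmap, pmap, pmap, lift_snd, Category.assoc, lift_snd, lift_snd_assoc, Category.assoc]

/-- The product of two varieties with group actions. -/
noncomputable def gprod (A B : GVar 𝒱) : GVar 𝒱 where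
  X := A.X.prod B.X
  G := A.G × B.G
  act g := pmap (A.act g.1) (B.act g.2)
  act_zero := by
    show pmap (A.act 0) (B.act 0) = _
    rw [A.act_zero, B.act_zero, pmap_id]
  act_add g h := by
    show pmap (A.act (g.1 + h.1)) (B.act (g.2 + h.2)) = _
    rw [A.act_add, B.act_add, pmap_comp]

lemma pl_mul (f : X ⟶ Y) (a b : HL T.W ℂ Y) :
    pl T f (mulL a b) = mulL (pl T f a) (pl T f b) :=
  bc_mul ℂ (T.W.map f) a b

lemma pl_eL (f : X ⟶ Y) (g : Z ⟶ W) (a : HL T.W ℂ Y) (b : HL T.W ℂ W) :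
    pl T (pmap f g) (eL T Y W a b) = eL T X Z (pl T f a) (pl T g b) := by
  rw [eL_apply, eL_apply, pl_mul, mapL_eq, mapL_eq, mapL_eq, mapL_eq, ← pl_comp, ← pl_comp,
    ← pl_comp, ← pl_comp, pmap, lift_fst, lift_snd]

section conj

variable (σ : ℂ ≃+* ℂ)

lemma conj_zero : conj T σ (0 : HL T.W ℂ X) = 0 := map_zero (galT T.rat σ)

lemma conj_add (x y : HL T.W ℂ X) : conj T σ (x + y) = conj T σ x + conj T σ y :=
  map_add (galT T.rat σ) x y

lemma conj_smul (z : ℂ) (x : HL T.W ℂ X) : conj T σ (z • x) = σ z • conj T σ x :=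
  galT_smul T.rat σ z x

lemma conj_sum {I : Type*} (s : Finset I) (x : I → HL T.W ℂ X) :
    conj T σ (∑ i ∈ s, x i) = ∑ i ∈ s, conj T σ (x i) :=
  map_sum (galT T.rat σ) x s

lemma conj_pl (f : X ⟶ Y) (x : HL T.W ℂ Y) : conj T σ (pl T f x) = pl T f (conj T σ x) :=
  galT_map T.rat σ (T.W.map f).toLinearMap x

lemma conj_em (a : T.W.H X) : conj T σ (emL T.W ℂ a) = emL T.W ℂ a := by
  show (σ 1) ⊗ₜ a = _
  rw [map_one]
  rfl

lemma conj_eL (a : HL T.W ℂ X) (b : HL T.W ℂ Y) :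
    conj T σ (eL T X Y a b) = eL T X Y (conj T σ a) (conj T σ b) := by
  have h := galT_mul T.rat σ (A := T.W.H (X.prod Y)) (pl T (fst X Y) a) (pl T (snd X Y) b)
  exact h.trans (congrArg₂ (fun x y : ℂ ⊗[T.W.K] T.W.H (X.prod Y) => x * y)
    (conj_pl T σ (fst X Y) a) (conj_pl T σ (snd X Y) b))

lemma conj_symm (x : HL T.W ℂ X) : conj T σ.symm (conj T σ x) = x :=
  galT_comp T.rat σ σ.symm (fun z => σ.symm_apply_apply z) x

lemma conj_symm' (x : HL T.W ℂ X) : conj T σ (conj T σ.symm x) = x :=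
  galT_comp T.rat σ.symm σ (fun z => σ.apply_symm_apply z) x

lemma conj_injective : Function.Injective (conj T σ : HL T.W ℂ X → HL T.W ℂ X) :=
  galT_injective T.rat σ

end conj

section eig

variable (A B : GVar 𝒱)

/-- The projection to the eigenvectors with the character `χ`. -/
noncomputable def eg (χ : AddChar A.G ℂ) : HL T.W ℂ A.X →ₗ[ℂ] HL T.W ℂ A.X :=
  (Fintype.card A.G : ℂ)⁻¹ • ∑ g, χ (-g) • pl T (A.act g)

lemma eg_apply (χ : AddChar A.G ℂ) (x : HL T.W ℂ A.X) :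
    eg T A χ x = (Fintype.card A.G : ℂ)⁻¹ • ∑ g, χ (-g) • pl T (A.act g) x := by
  rw [eg, LinearMap.smul_apply, LinearMap.sum_apply]
  rfl

lemma card_ne : (Fintype.card A.G : ℂ) ≠ 0 := Nat.cast_ne_zero.2 Fintype.card_ne_zero

lemma eg_eigen (χ : AddChar A.G ℂ) (x : HL T.W ℂ A.X) : IsEigenvector T A χ (eg T A χ x) := by
  intro h
  rw [mapL_eq, smL_eq, eg_apply, map_smul, map_sum, smul_comm (χ h)]
  congr 1
  rw [Finset.smul_sum]
  refine Fintype.sum_equiv (Equiv.addLeft h) (fun g => pl T (A.act h) (χ (-g) • pl T (A.act g) x))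
    (fun g => χ h • (χ (-g) • pl T (A.act g) x)) fun g => ?_
  show pl T (A.act h) (χ (-g) • pl T (A.act g) x) =
    χ h • (χ (-(h + g)) • pl T (A.act (h + g)) x)
  rw [map_smul, ← pl_comp, ← A.act_add, smul_smul]
  congr 1
  rw [← AddChar.map_add_eq_mul]
  congr 1
  abel

lemma eg_of_eigen (χ : AddChar A.G ℂ) {x : HL T.W ℂ A.X} (hx : IsEigenvector T A χ x) :
    eg T A χ x = x := by
  rw [eg_apply]
  have h : ∀ g : A.G, χ (-g) • pl T (A.act g) x = x := fun g => by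
    have h1 := hx g
    rw [mapL_eq, smL_eq] at h1
    rw [h1, smul_smul, ← AddChar.map_add_eq_mul, neg_add_cancel, AddChar.map_zero_eq_one, one_smul]
  rw [Finset.sum_congr rfl fun g _ => h g, Finset.sum_const, Finset.card_univ,
    ← Nat.cast_smul_eq_nsmul ℂ, smul_smul, inv_mul_cancel₀ (card_ne A), one_smul]

lemma eg_sum (x : HL T.W ℂ A.X) : ∑ χ : AddChar A.G ℂ, eg T A χ x = x := by
  classical
  rw [Finset.sum_congr rfl fun χ _ => eg_apply T A χ x, ← Finset.smul_sum, Finset.sum_comm]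
  have h : ∀ g : A.G, ∑ χ : AddChar A.G ℂ, χ (-g) • pl T (A.act g) x =
      if g = 0 then (Fintype.card A.G : ℂ) • x else 0 := fun g => by
    rw [← Finset.sum_smul, AddChar.sum_apply_eq_ite]
    by_cases hg : g = 0
    · rw [if_pos hg, if_pos (by rw [hg, neg_zero]), hg, A.act_zero, pl_id]
    · rw [if_neg hg, if_neg (by rwa [neg_eq_zero]), zero_smul]
  rw [Finset.sum_congr rfl fun g _ => h g, Finset.sum_ite_eq' Finset.univ (0 : A.G),
    if_pos (Finset.mem_univ _), smul_smul, inv_mul_cancel₀ (card_ne A), one_smul]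

/-- The restriction of a character to the first factor. -/
noncomputable def c1 (χ : AddChar (gprod A B).G ℂ) : AddChar A.G ℂ :=
  χ.compAddMonoidHom (AddMonoidHom.inl A.G B.G)

/-- The restriction of a character to the second factor. -/
noncomputable def c2 (χ : AddChar (gprod A B).G ℂ) : AddChar B.G ℂ :=
  χ.compAddMonoidHom (AddMonoidHom.inr A.G B.G)

lemma c_mul (χ : AddChar (gprod A B).G ℂ) (g : A.G) (h : B.G) :
    χ ((g, h) : A.G × B.G) = c1 A B χ g * c2 A B χ h := by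
  have h1 : ((g, h) : A.G × B.G) = (g, 0) + (0, h) := by
    rw [Prod.mk_add_mk, add_zero, zero_add]
  rw [h1]
  exact AddChar.map_add_eq_mul χ _ _

lemma eL_sum2 {I J : Type} [Fintype I] [Fintype J] (u : I → ℂ) (v : J → ℂ)
    (P : I → HL T.W ℂ X) (Q : J → HL T.W ℂ Y) :
    eL T X Y (∑ g, u g • P g) (∑ h, v h • Q h) = ∑ g, ∑ h, (u g * v h) • eL T X Y (P g) (Q h) := by
  rw [map_sum (eL T X Y) _ _, LinearMap.sum_apply]
  refine Finset.sum_congr rfl fun g _ => ?_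
  rw [map_smul (eL T X Y), LinearMap.smul_apply, map_sum (eL T X Y (P g)), Finset.smul_sum]
  refine Finset.sum_congr rfl fun h _ => ?_
  rw [map_smul (eL T X Y (P g)), smul_smul]

lemma eg_prod (χ : AddChar (gprod A B).G ℂ) (a : HL T.W ℂ A.X) (b : HL T.W ℂ B.X) :
    eg T (gprod A B) χ (eL T A.X B.X a b) =
      eL T A.X B.X (eg T A (c1 A B χ) a) (eg T B (c2 A B χ) b) := by
  rw [eg_apply, eg_apply, eg_apply]
  have hc : (Fintype.card (gprod A B).G : ℂ) = Fintype.card A.G * Fintype.card B.G := by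
    have h1 : Fintype.card (gprod A B).G = Fintype.card (A.G × B.G) := rfl
    rw [h1, Fintype.card_prod, Nat.cast_mul]
  rw [hc, mul_inv, map_smul (eL T A.X B.X), LinearMap.smul_apply,
    map_smul (eL T A.X B.X (∑ g, (c1 A B χ) (-g) • (pl T (A.act g)) a)), smul_smul]
  congr 1
  rw [eL_sum2]
  have h2 : (∑ g : (gprod A B).G, χ (-g) • pl T ((gprod A B).act g) (eL T A.X B.X a b)) =
      ∑ g : A.G × B.G, (c1 A B χ (-g.1) * c2 A B χ (-g.2)) •
        eL T A.X B.X (pl T (A.act g.1) a) (pl T (B.act g.2) b) := by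
    refine Finset.sum_congr rfl fun g _ => ?_
    rw [← c_mul]
    exact congrArg (fun y => χ (-g) • y) (pl_eL T (A.act g.1) (B.act g.2) a b)
  rw [h2, Fintype.sum_prod_type]

/-- The conjugate of a character. -/
noncomputable def cc (σ : ℂ ≃+* ℂ) {G : Type} [AddCommGroup G] (χ : AddChar G ℂ) :
    AddChar G ℂ :=
  ((σ : ℂ →+* ℂ) : ℂ →* ℂ).compAddChar χ

lemma cc_apply (σ : ℂ ≃+* ℂ) {G : Type} [AddCommGroup G] (χ : AddChar G ℂ) (g : G) :
    cc σ χ g = σ (χ g) := rfl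

lemma conj_eg (σ : ℂ ≃+* ℂ) (χ : AddChar A.G ℂ) (x : HL T.W ℂ A.X) :
    conj T σ (eg T A χ x) = eg T A (cc σ χ) (conj T σ x) := by
  rw [eg_apply, eg_apply, conj_smul, map_inv₀, map_natCast, conj_sum]
  congr 1
  refine Finset.sum_congr rfl fun g _ => ?_
  rw [conj_smul, conj_pl, cc_apply]

lemma op1_pl (f : X ⟶ X) (x : HL T.W ℂ (X.prod Y)) :
    op1 T (pl T f) x = pl T (pmap f (𝟙 Y)) x := by
  have h : (op1 T (pl T f) : HL T.W ℂ (X.prod Y) →ₗ[ℂ] HL T.W ℂ (X.prod Y)) =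
      pl T (pmap f (𝟙 Y)) :=
    lin_ext T fun a b => by rw [op1_eL, pl_eL, pl_id]
  exact LinearMap.congr_fun h x

lemma op1_eg (χ : AddChar A.G ℂ) (x : HL T.W ℂ (A.X.prod Y)) :
    op1 T (eg T A χ) x =
      (Fintype.card A.G : ℂ)⁻¹ • ∑ g, χ (-g) • pl T (pmap (A.act g) (𝟙 Y)) x := by
  have h : (op1 T (eg T A χ) : HL T.W ℂ (A.X.prod Y) →ₗ[ℂ] HL T.W ℂ (A.X.prod Y)) =
      (Fintype.card A.G : ℂ)⁻¹ • ∑ g, χ (-g) • pl T (pmap (A.act g) (𝟙 Y)) := by
    refine lin_ext T fun a b => ?_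
    rw [op1_eL, eg_apply, map_smul, map_sum, LinearMap.smul_apply, LinearMap.smul_apply,
      LinearMap.sum_apply, LinearMap.sum_apply]
    congr 1
    refine Finset.sum_congr rfl fun g _ => ?_
    rw [map_smul, LinearMap.smul_apply, LinearMap.smul_apply, pl_eL, pl_id]
  rw [h, LinearMap.smul_apply, LinearMap.sum_apply]
  rfl

lemma op1_eg_mem {t : ℤ × ℤ} (χ : AddChar A.G ℂ) {x : HL T.W ℂ (A.X.prod Y)}
    (hx : x ∈ T.pq (A.X.prod Y) t.1 t.2) : op1 T (eg T A χ) x ∈ T.pq (A.X.prod Y) t.1 t.2 := by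
  rw [op1_eg]
  refine Submodule.smul_mem _ _ (Submodule.sum_mem _ fun g _ => Submodule.smul_mem _ _ ?_)
  exact T.map _ _ _ _ _ _ hx

lemma conj_op1 (σ : ℂ ≃+* ℂ) (χ : AddChar A.G ℂ) (x : HL T.W ℂ (A.X.prod Y)) :
    conj T σ (op1 T (eg T A χ) x) = op1 T (eg T A (cc σ χ)) (conj T σ x) := by
  rw [op1_eg, op1_eg, conj_smul, map_inv₀, map_natCast, conj_sum]
  congr 1
  refine Finset.sum_congr rfl fun g _ => ?_
  rw [conj_smul, conj_pl, cc_apply]

lemma op1_eg_sum (x : HL T.W ℂ (A.X.prod Y)) :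
    ∑ χ : AddChar A.G ℂ, op1 T (eg T A χ) x = x := by
  have h : (∑ χ : AddChar A.G ℂ, op1 T (eg T A χ) :
      HL T.W ℂ (A.X.prod Y) →ₗ[ℂ] HL T.W ℂ (A.X.prod Y)) = LinearMap.id := by
    refine lin_ext T fun a b => ?_
    rw [LinearMap.sum_apply, Finset.sum_congr rfl fun χ _ => op1_eL T (eg T A χ) a b,
      ← LinearMap.sum_apply, ← map_sum, eg_sum, LinearMap.id_apply]
  have h1 := LinearMap.congr_fun h x
  rw [LinearMap.sum_apply] at h1
  exact h1

end eig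

end Pool.Agent.U222.HC.I
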