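import Pool.Agent.U222.HC.Act

/-!
# The conjugates of the coefficients of a Hodge class
-/

set_option autoImplicit false

open CategoryTheory AlgebraicGeometry TensorProduct Limits

universe u

namespace Pool.Agent.U222.HC.I

open Pool.Agent.H914 Pool.Agent.H914.VarClass Pool.Agent.H914.VarClass.Obj Pool.Agent.Y121.AHS

variable {k : Type u} [Field k] {𝒱 : VarClass k} {ops : CycleOps 𝒱} (T : HodgeTheory ops)
  {X Y Z W : 𝒱.Obj}

/-- The conjugate of a linear form. -/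
noncomputable def cf (σ : ℂ ≃+* ℂ) (θ : HL T.W ℂ X →ₗ[ℂ] ℂ) : HL T.W ℂ X →ₗ[ℂ] ℂ where
  toFun a := σ (θ (conj T σ.symm a))
  map_add' a b := by rw [conj_add, map_add, map_add]
  map_smul' z a := by
    rw [conj_smul, map_smul, smul_eq_mul, map_mul, RingEquiv.apply_symm_apply, RingHom.id_apply,
      smul_eq_mul]

lemma cf_apply (σ : ℂ ≃+* ℂ) (θ : HL T.W ℂ X →ₗ[ℂ] ℂ) (a : HL T.W ℂ X) :
    cf T σ θ a = σ (θ (conj T σ.symm a)) := rfl

lemma conj_ctr (σ : ℂ ≃+* ℂ) (θ : HL T.W ℂ X →ₗ[ℂ] ℂ) (x : HL T.W ℂ (X.prod Y)) :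
    conj T σ (ctr T θ x) = ctr T (cf T σ θ) (conj T σ x) := by
  induction x using kn_ind T with
  | h0 => rw [map_zero, conj_zero, conj_zero, map_zero]
  | ha x y hx hy => rw [map_add, conj_add, conj_add, map_add, hx, hy]
  | he a b => rw [ctr_eL, conj_smul, conj_eL, ctr_eL, cf_apply, conj_symm]

lemma ctr_conj (σ : ℂ ≃+* ℂ) (φ : HL T.W ℂ X →ₗ[ℂ] ℂ) (x : HL T.W ℂ (X.prod Y)) :
    ctr T φ (conj T σ x) = conj T σ (ctr T (cf T σ.symm φ) x) := by
  rw [conj_ctr]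
  congr 1
  refine congrArg (ctr T) (LinearMap.ext fun a => ?_)
  rw [cf_apply, cf_apply, RingEquiv.apply_symm_apply]
  congr 1
  exact (conj_symm' T σ a).symm

lemma ctr_add (θ φ : HL T.W ℂ X →ₗ[ℂ] ℂ) (x : HL T.W ℂ (X.prod Y)) :
    ctr T (θ + φ) x = ctr T θ x + ctr T φ x := by
  induction x using kn_ind T with
  | h0 => rw [map_zero, map_zero, map_zero, add_zero]
  | ha x y hx hy =>
    rw [map_add, map_add, map_add, hx, hy]
    abel
  | he a b => rw [ctr_eL, ctr_eL, ctr_eL, LinearMap.add_apply, add_smul]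

lemma ctr_smul (z : ℂ) (θ : HL T.W ℂ X →ₗ[ℂ] ℂ) (x : HL T.W ℂ (X.prod Y)) :
    ctr T (z • θ) x = z • ctr T θ x := by
  induction x using kn_ind T with
  | h0 => rw [map_zero, map_zero, smul_zero]
  | ha x y hx hy => rw [map_add, map_add, hx, hy, smul_add]
  | he a b => rw [ctr_eL, ctr_eL, LinearMap.smul_apply, smul_assoc]

lemma ctr_zero (x : HL T.W ℂ (X.prod Y)) : ctr T (0 : HL T.W ℂ X →ₗ[ℂ] ℂ) x = 0 := by
  have h := ctr_smul T 0 (0 : HL T.W ℂ X →ₗ[ℂ] ℂ) x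
  rw [zero_smul, zero_smul] at h
  exact h

/-- The space of the coefficients of a class on a product. -/
noncomputable def cof (x : HL T.W ℂ (X.prod Y)) : Submodule ℂ (HL T.W ℂ Y) where
  carrier := {y | ∃ θ, ctr T θ x = y}
  add_mem' := by
    rintro _ _ ⟨θ, rfl⟩ ⟨φ, rfl⟩
    exact ⟨θ + φ, ctr_add T θ φ x⟩
  zero_mem' := ⟨0, ctr_zero T x⟩
  smul_mem' := by
    rintro z _ ⟨θ, rfl⟩
    exact ⟨z • θ, ctr_smul T z θ x⟩

lemma mem_cof (x : HL T.W ℂ (X.prod Y)) (θ : HL T.W ℂ X →ₗ[ℂ] ℂ) : ctr T θ x ∈ cof T x :=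
  ⟨θ, rfl⟩

/-- Components of the coefficients. -/
lemma pr_ctr {t : ℤ × ℤ} {x : HL T.W ℂ (X.prod Y)} (hx : x ∈ T.pq (X.prod Y) t.1 t.2)
    (s : ℤ × ℤ) (θ : HL T.W ℂ X →ₗ[ℂ] ℂ) :
    pr T Y s (ctr T θ x) = ctr T (θ ∘ₗ pr T X (t - s)) x := by
  rw [← ctr_op2, op_pr T hx s, ctr_op1]

variable (A : GVar 𝒱)

/-- For each nontrivial character the eigenvectors with some conjugate character are sums of
classes of types `(p, q)` with `p - q ≥ M`. -/
def IsExt (M : ℤ) : Prop := ∀ χ : AddChar A.G ℂ, χ ≠ 1 → ∃ σ : ℂ ≃+* ℂ, ∀ x,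
  IsEigenvector T A (cc σ χ) x → x ∈ above T A.X M

lemma cc_eq {N : ℕ} (hN : ∀ g : A.G, N • g = 0) (χ : AddChar A.G ℂ) {σ : ℂ ≃+* ℂ}
    (hσ : ∀ z : ℂ, z ^ N = 1 → σ z = z) : cc σ χ = χ := by
  refine DFunLike.ext _ _ fun g => ?_
  rw [cc_apply]
  refine hσ _ ?_
  rw [← AddChar.map_nsmul_eq_pow, hN, AddChar.map_zero_eq_one]

/-- **The vanishing of the components of Hodge classes with nontrivial characters.** -/
theorem comp_eq_zero {M : ℤ} (hA : IsExt T A M) {N : ℕ} (hN : ∀ g : A.G, N • g = 0)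
    (hZ : IsUnrelated T N M Z) {w : ℤ} {c : T.W.H (A.X.prod Z)}
    (hc : emL T.W ℂ c ∈ T.pq (A.X.prod Z) w w) {χ : AddChar A.G ℂ} (hχ : χ ≠ 1) :
    op1 T (eg T A χ) (emL T.W ℂ c) = 0 := by
  obtain ⟨σ, hσ⟩ := hA χ hχ
  refine conj_injective T σ ?_
  rw [conj_op1, conj_em, conj_zero]
  set χ' := cc σ χ with hχ'
  set x := op1 T (eg T A χ') (emL T.W ℂ c) with hxdef
  have hx : x ∈ T.pq (A.X.prod Z) ((w, w) : ℤ × ℤ).1 ((w, w) : ℤ × ℤ).2 :=
    op1_eg_mem T A (t := (w, w)) χ' hc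
  have hconj : ∀ τ : ℂ ≃+* ℂ, conj T τ x = op1 T (eg T A (cc τ χ')) (emL T.W ℂ c) := by
    intro τ
    rw [hxdef, conj_op1, conj_em]
  have hU : IsSubstructure T N Z (cof T x) := by
    constructor
    · rintro τ hτ _ ⟨θ, rfl⟩
      rw [conj_ctr, hconj, cc_eq A hN χ' hτ]
      exact mem_cof T x _
    · rintro τ _ ⟨θ, rfl⟩
      rw [conj_ctr]
      have hx' : conj T τ x ∈ T.pq (A.X.prod Z) ((w, w) : ℤ × ℤ).1 ((w, w) : ℤ × ℤ).2 := by
        rw [hconj]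
        exact op1_eg_mem T A (t := (w, w)) _ hc
      obtain ⟨S, -, hS⟩ := pr_sum T (ctr T (cf T τ θ) (conj T τ x))
      rw [hS]
      refine Submodule.sum_mem _ fun s _ => Submodule.subset_span ⟨⟨s.1, s.2, pr_mem T s _⟩, ?_⟩
      rw [pr_ctr T hx' s, ctr_conj]
      exact ⟨_, mem_cof T x _, rfl⟩
  have hb : cof T x ≤ below T Z M := by
    rintro _ ⟨θ, rfl⟩
    rw [mem_below]
    intro s hs
    rw [pr_ctr T hx s, ← ctr_op1]
    have h0 : ∀ y : HL T.W ℂ (A.X.prod Z),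
        op1 T (pr T A.X ((w, w) - s)) (op1 T (eg T A χ') y) = 0 := by
      intro y
      induction y using kn_ind T with
      | h0 => rw [map_zero, map_zero]
      | ha x y hx hy => rw [map_add, map_add, hx, hy, add_zero]
      | he a b =>
        rw [op1_eL, op1_eL, (mem_above T).1 (hσ _ (eg_eigen T A χ' a)) _ ?_, map_zero,
          LinearMap.zero_apply]
        show ¬ M ≤ (w - s.1) - (w - s.2)
        intro h
        apply hs
        linarith
    rw [hxdef, h0, map_zero]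
  have h1 := hZ _ hU hb
  refine eq_zero_of_ctr T fun θ => ?_
  have h2 := mem_cof T x θ
  rw [h1, Submodule.mem_bot] at h2
  exact h2

/-- The vanishing of the components of Hodge classes on the variety itself. -/
theorem comp_eq_zero' {M : ℤ} (hM : 0 < M) (hA : IsExt T A M) {w : ℤ} {c : T.W.H A.X}
    (hc : emL T.W ℂ c ∈ T.pq A.X w w) {χ : AddChar A.G ℂ} (hχ : χ ≠ 1) :
    eg T A χ (emL T.W ℂ c) = 0 := by
  obtain ⟨σ, hσ⟩ := hA χ hχ
  refine conj_injective T σ ?_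
  rw [conj_eg, conj_em, conj_zero]
  refine eq_zero_of_above T hM (w := w) ?_ (hσ _ (eg_eigen T A _ _))
  rw [eg_apply]
  refine Submodule.smul_mem _ _ (Submodule.sum_mem _ fun g _ => Submodule.smul_mem _ _ ?_)
  exact T.map _ _ _ _ _ _ hc

end Pool.Agent.U222.HC.I
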