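import Pool.Agent.U222.HC.Defs

/-!
# The Hodge conjecture for products with coverings: further definitions
-/

set_option autoImplicit false

open CategoryTheory AlgebraicGeometry TensorProduct

universe u

namespace Pool.Agent.U222.HC

open Pool.Agent.H914 Pool.Agent.H914.VarClass Pool.Agent.H914.VarClass.Obj Pool.Agent.Y121.AHS

variable {k : Type u} [Field k] {𝒱 : VarClass k} {ops : CycleOps 𝒱}

section classes

variable (T : HodgeTheory ops) {X : 𝒱.Obj}

/-- Varieties `X_i` with nonzero cohomology and with actions of finite abelian groups `G_i` such that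

* the classes in `H(X_i, ℚ)` that are invariant under `G_i` are algebraic;
* for each nontrivial character `χ` of `G_i` the eigenvectors of `G_i` in `H(X_i, ℂ)` with the
  character `χ` are sums of classes of types `(p, q)` with `p - q ≥ m i χ`. -/
structure IsSystem {n : ℕ} (A : Fam 𝒱 n) (m : ∀ i, (A i).Ch → ℤ) : Prop where
  nontrivial : ∀ i, ∃ x : T.W.H (A i).X, x ≠ 0
  invariants : ∀ i (x : T.W.H (A i).X), (∀ g, T.W.map ((A i).act g) x = x) → IsAlgebraic T x
  types : ∀ i χ x, ¬ χ.IsTrivial → IsEigenvector T (A i) χ x → IsAbove T (m i χ) x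

end classes

/-- For all nontrivial characters `χ i` of `G_i`, where `i` runs through a nonempty set `I` of indices,
there is a number `u`, prime to the orders of the `G_i` with `i ∈ I`, such that the sum of the numbers
`m i (χ i ^ u)` is at least `M`. -/
def IsExtreme {n : ℕ} (A : Fam 𝒱 n) (m : ∀ i, (A i).Ch → ℤ) (M : ℤ) : Prop :=
  ∀ I : Finset (Fin (n + 1)), I.Nonempty → ∀ χ : ∀ i, (A i).Ch, (∀ i ∈ I, ¬ (χ i).IsTrivial) →
    ∃ u : ℕ, (∀ i ∈ I, u.Coprime (A i).order) ∧ M ≤ ∑ i ∈ I, m i ((χ i).pow u)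

/-- The orders of the groups `G_i` are pairwise coprime, and for each `i` and each nontrivial
character `χ` of `G_i` there is a number `u`, prime to the order of `G_i`, with `m i (χ ^ u) ≥ M`. -/
def IsCoprimeExtreme {n : ℕ} (A : Fam 𝒱 n) (m : ∀ i, (A i).Ch → ℤ) (M : ℤ) : Prop :=
  (∀ i i', i ≠ i' → (A i).order.Coprime (A i').order) ∧
    ∀ i (χ : (A i).Ch), ¬ χ.IsTrivial → ∃ u : ℕ, u.Coprime (A i).order ∧ M ≤ m i (χ.pow u)

section substructures

variable (T : HodgeTheory ops) {X : 𝒱.Obj}

/-- The Hodge numbers `h^(p,q)` of `Z` are zero if `|p - q| ≥ M`. -/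
def IsOfLevelLess (M : ℤ) (Z : 𝒱.Obj) : Prop :=
  ∀ (p q : ℤ) (x : HL T.W ℂ Z), IsType T.pq p q x → M ≤ |p - q| → x = 0

end substructures

end Pool.Agent.U222.HC
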