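import Pool.Agent.U222.HC.Nest
import Pool.Agent.H914R2.WeilBasic

/-!
# The Hodge conjecture for products with coverings
-/

set_option autoImplicit false

open CategoryTheory AlgebraicGeometry TensorProduct Limits

universe u

namespace Pool.Agent.U222.HC.I

open Pool.Agent.H914 Pool.Agent.H914.VarClass Pool.Agent.H914.VarClass.Obj Pool.Agent.Y121.AHS

variable {k : Type u} [Field k] {𝒱 : VarClass k} {ops : CycleOps 𝒱} (T : HodgeTheory ops)
  {X Y Z W : 𝒱.Obj} (A : GVar 𝒱)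

lemma gr_ind {P : T.W.H X → Prop} (h0 : P 0) (ha : ∀ x y, P x → P y → P (x + y))
    (hg : ∀ i a, a ∈ T.W.gr X i → P a) (x : T.W.H X) : P x := by
  have hx : x ∈ ⨆ i, T.W.gr X i := by
    rw [(T.W.isInternal X).submodule_iSup_eq_top]
    exact Submodule.mem_top
  induction hx using Submodule.iSup_induction' with
  | mem i x hx => exact hg i x hx
  | zero => exact h0
  | add x y _ _ hx hy => exact ha x y hx hy

lemma one_prod (hX : (1 : T.W.H X) ≠ 0) (hY : (1 : T.W.H Y) ≠ 0) :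
    (1 : T.W.H (X.prod Y)) ≠ 0 := by
  intro h
  obtain ⟨θ, hθ⟩ : ∃ θ : T.W.H X →ₗ[T.W.K] T.W.K, θ 1 ≠ 0 := by
    by_contra hne
    push Not at hne
    exact hX ((Module.forall_dual_apply_eq_zero_iff T.W.K (1 : T.W.H X)).1 hne)
  obtain ⟨φ, hφ⟩ : ∃ φ : T.W.H Y →ₗ[T.W.K] T.W.K, φ 1 ≠ 0 := by
    by_contra hne
    push Not at hne
    exact hY ((Module.forall_dual_apply_eq_zero_iff T.W.K (1 : T.W.H Y)).1 hne)
  have h1 : kunnethMap (T.W.map (fst X Y)) (T.W.map (snd X Y)) (1 ⊗ₜ 1) = 0 := by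
    have h2 : kunnethMap (T.W.map (fst X Y)) (T.W.map (snd X Y)) (1 ⊗ₜ 1) =
        T.W.map (fst X Y) 1 * T.W.map (snd X Y) 1 := rfl
    rw [h2, map_one, map_one, mul_one, h]
  have h3 : (1 : T.W.H X) ⊗ₜ[T.W.K] (1 : T.W.H Y) = 0 := (T.W.kunneth X Y).1 (by rw [h1, map_zero])
  have h4 := congrArg (TensorProduct.lift ((LinearMap.mul T.W.K T.W.K).compl₁₂ θ φ)) h3
  rw [TensorProduct.lift.tmul, map_zero] at h4
  exact (mul_ne_zero hθ hφ) h4

lemma one_nest : ∀ (n : ℕ) (A : Fin (n + 1) → GVar 𝒱), (∀ i, (1 : T.W.H (A i).X) ≠ 0) →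
    (1 : T.W.H (nest n A).X) ≠ 0
  | 0, _, h => h 0
  | n + 1, A, h => one_prod T (h 0) (one_nest n (fun i => A i.succ) fun i => h i.succ)

/-- A zero-cycle of nonzero degree. -/
lemma exists_point (h1 : (1 : T.W.H X) ≠ 0) : ∃ z : X.Cycles, X.IsCyc X.dim z ∧
    T.W.tr X (T.W.cl X z) ≠ 0 := by
  obtain ⟨D, hD, hHL, -⟩ := T.polar X
  have hcyc : ∀ r : ℕ, ∃ z : X.Cycles, X.IsCyc r z ∧
      T.W.cl X z = (LinearMap.mulLeft T.W.K (T.W.cl X D) ^ r) 1 := by
    intro r
    induction r with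
    | zero => exact ⟨X.V.fundCycle, X.V.fundCycle_mem, T.W.cl_fund X⟩
    | succ r ih =>
      obtain ⟨z, hz, hcl⟩ := ih
      refine ⟨ops.mul D z, ?_, ?_⟩
      · rw [add_comm]
        exact ops.mul_mem hD hz
      · rw [T.W.cl_mul, hcl, pow_succ', Module.End.mul_apply, LinearMap.mulLeft_apply]
  obtain ⟨z, hz, hcl⟩ := hcyc X.dim
  refine ⟨z, hz, fun h0 => h1 (T.W.nondeg _ fun b => ?_)⟩
  rw [one_mul]
  induction b using gr_ind T with
  | h0 => exact map_zero _
  | ha x y hx hy => rw [map_add, hx, hy, add_zero]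
  | hg j b hb =>
    by_cases hj : j = 2 * X.dim
    · subst hj
      obtain ⟨a, ha, rfl⟩ := (hHL 0 (Nat.zero_le _)).2 b (by simpa using hb)
      rw [T.W.gr_zero] at ha
      obtain ⟨q, rfl⟩ := Submodule.mem_span_singleton.1 ha
      rw [map_smul, map_smul, Nat.sub_zero, ← hcl, h0, smul_zero]
    · exact T.W.tr_eq_zero hb hj

lemma push_snd (a : T.W.H X) (b : T.W.H Y) :
    T.W.push (snd X Y) (T.W.map (fst X Y) a * T.W.map (snd X Y) b) = T.W.tr X a • b := by
  rw [← sub_eq_zero]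
  refine T.W.nondeg _ fun c => ?_
  rw [sub_mul, map_sub, T.W.tr_push, mul_assoc, ← map_mul, T.W.tr_prod, smul_mul_assoc, map_smul,
    smul_eq_mul, sub_self]

/-- The Hodge conjecture for `X × Z` implies it for `Z`. -/
lemma hodge_of_prod (h1 : (1 : T.W.H X) ≠ 0) (h : HodgeConjecture T (X.prod Z)) :
    HodgeConjecture T Z := by
  intro j c hc
  obtain ⟨y, hy, hydeg⟩ := exists_point T h1
  have h2 : IsHodge T (X.prod Z) j (T.W.map (snd X Z) c) := by
    refine ⟨T.W.map_mem _ hc.1, ?_⟩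
    exact T.map _ _ _ _ _ _ hc.2
  obtain ⟨z, hz, hcl⟩ := h j _ h2
  have h3 : Z.IsCyc j (ops.push (snd X Z) (ops.mul (ops.pull (fst X Z) y) z)) := by
    refine ops.push_mem _ (ops.mul_mem (ops.pull_mem _ hy) hz) ?_
    rw [dim_prod]
    ring
  have h4 : T.W.cl Z (ops.push (snd X Z) (ops.mul (ops.pull (fst X Z) y) z)) =
      T.W.tr X (T.W.cl X y) • c := by
    rw [T.W.cl_push, T.W.cl_mul, T.W.cl_pull, hcl, push_snd]
  have h5 : T.W.tr X (T.W.cl X y) = (X.V.degCycle y : T.W.K) := T.W.tr_cl hy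
  have h6 : X.V.degCycle y ≠ 0 := by
    intro h0
    rw [h5, h0, Rat.cast_zero] at hydeg
    exact hydeg rfl
  refine ⟨(X.V.degCycle y)⁻¹ • ops.push (snd X Z) (ops.mul (ops.pull (fst X Z) y) z),
    SmVar.IsCyc.smul _ h3, ?_⟩
  rw [T.W.cl_smul, h4, h5, smul_smul, ← Rat.cast_mul, inv_mul_cancel₀ h6, Rat.cast_one, one_smul]

/-- Sums of products of algebraic and Hodge classes. -/
lemma hodge_of_sums (hZ : HodgeConjecture T Z)
    (h : ∀ w c, IsHodge T (X.prod Z) w c → IsSumOfProducts T X Z w c) :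
    HodgeConjecture T (X.prod Z) := by
  intro w c hc
  obtain ⟨r, j, a, b, hab, rfl⟩ := h w c hc
  choose z hz hcl using fun t => hZ _ _ (hab t).2.2
  refine ⟨∑ t, ops.mul (ops.pull (fst X Z) (a t)) (ops.pull (snd X Z) (z t)), ?_, ?_⟩
  · have h1 : ∀ s : Finset (Fin r), (X.prod Z).IsCyc w
        (∑ t ∈ s, ops.mul (ops.pull (fst X Z) (a t)) (ops.pull (snd X Z) (z t))) := by
      classical
      intro s
      induction s using Finset.induction_on with
      | empty => rw [Finset.sum_empty]; exact SmVar.IsCyc.zero _ _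
      | insert t s ht ih =>
        rw [Finset.sum_insert ht]
        refine SmVar.IsCyc.add ?_ ih
        have h2 := ops.mul_mem (ops.pull_mem (fst X Z) (hab t).2.1)
          (ops.pull_mem (snd X Z) (hz t))
        rwa [Nat.add_sub_cancel' (hab t).1] at h2
    exact h1 Finset.univ
  · rw [map_sum]
    refine Finset.sum_congr rfl fun t _ => ?_
    rw [T.W.cl_mul, T.W.cl_pull, T.W.cl_pull, hcl]

/-- The Hodge conjecture for a variety all of whose Hodge classes are algebraic linear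
combinations. -/
lemma cyc_of_algebraic {j : ℕ} {c : T.W.H X} (hc : IsHodge T X j c) (h : IsAlgebraic T c) :
    ∃ z, X.IsCyc j z ∧ T.W.cl X z = c := by
  classical
  obtain ⟨r, d, a, ha, hli, hspan⟩ := exists_family T X
  obtain ⟨ρ, hρ⟩ := (Submodule.mem_span_range_iff_exists_fun T.W.K).1 (hspan c h)
  have h2 : ∀ t, d t ≠ j → ρ t = 0 := by
    intro t ht
    have h3 : pr T X ((d t : ℤ), (d t : ℤ)) (emL T.W ℂ c) = 0 := by
      rw [pr_of_mem T (s := ((j : ℤ), (j : ℤ))) _ hc.2, if_neg]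
      intro h4
      have h5 : (j : ℤ) = d t := congrArg Prod.fst h4
      exact ht (by exact_mod_cast h5.symm)
    rw [← hρ, em_sum, map_sum] at h3
    have h4 : ∀ t', pr T X ((d t : ℤ), (d t : ℤ)) (emL T.W ℂ (ρ t' • T.W.cl X (a t'))) =
        (if d t' = d t then algebraMap T.W.K ℂ (ρ t') else 0) • emL T.W ℂ (T.W.cl X (a t')) := by
      intro t'
      rw [em_smul, map_smul, pr_of_mem T (s := ((d t' : ℤ), (d t' : ℤ))) _
        (T.cyc X (d t') (a t') (ha t')).2]
      by_cases h5 : d t' = d t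
      · rw [if_pos h5, if_pos (by rw [h5])]
      · have h7 : ¬ (((d t' : ℤ), (d t' : ℤ)) : ℤ × ℤ) = ((d t : ℤ), (d t : ℤ)) := by
          intro h6
          have h8 : (d t' : ℤ) = d t := congrArg Prod.fst h6
          exact h5 (by exact_mod_cast h8)
        rw [if_neg h5, if_neg h7, smul_zero, zero_smul]
    rw [Finset.sum_congr rfl fun t' _ => h4 t'] at h3
    have h5 := Fintype.linearIndependent_iff.1 (indep_em T hli) _ h3 t
    rw [if_pos rfl] at h5
    exact (map_eq_zero _).1 h5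
  have h3 : ∀ s : Finset (Fin r), ∃ z, X.IsCyc j z ∧ T.W.cl X z = ∑ t ∈ s, ρ t • T.W.cl X (a t) := by
    intro s
    induction s using Finset.induction_on with
    | empty => exact ⟨0, SmVar.IsCyc.zero _ _, by rw [map_zero, Finset.sum_empty]⟩
    | insert t s ht ih =>
      obtain ⟨z, hz, hcl⟩ := ih
      by_cases hd : d t = j
      · obtain ⟨q, hq⟩ := T.rat (ρ t)
        refine ⟨q • a t + z, SmVar.IsCyc.add (SmVar.IsCyc.smul _ (hd ▸ ha t)) hz, ?_⟩
        rw [map_add, hcl, Finset.sum_insert ht, ← hq]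
        congr 1
        exact T.W.cl_smul q (a t)
      · exact ⟨z, hz, by rw [hcl, Finset.sum_insert ht, h2 t hd, zero_smul, zero_add]⟩
  obtain ⟨z, hz, hcl⟩ := h3 Finset.univ
  exact ⟨z, hz, by rw [hcl, hρ]⟩

/-- Varieties of small level are unrelated. -/
theorem unrelated_of_level {M : ℤ} (h : IsOfLevelLess T M Z) (N : ℕ) : IsUnrelated T N M Z := by
  intro U _ hb
  rw [eq_bot_iff]
  refine hb.trans (iSup_le fun r x hx => ?_)
  rw [Submodule.mem_bot]
  refine h _ _ x hx ?_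
  have h1 := r.2
  rw [abs_sub_comm]
  refine le_trans ?_ (le_abs_self _)
  linarith

/-- **The Hodge classes on the products.** -/
theorem main_sums {n : ℕ} (A : Fin (n + 1) → GVar 𝒱) (m : ∀ i, AddChar (A i).G ℂ → ℤ) {M : ℤ}
    (h : IsSystem T A m) (hM : IsExtreme A m M) {N : ℕ} (hN : ∀ i, (A i).order ∣ N)
    (hZ : IsUnrelated T N M Z) (w : ℕ) (c : T.W.H ((product n A).prod Z)) (hc : IsHodge T _ w c) :
    IsSumOfProducts T (product n A) Z w c := by
  have hg : ∀ i (g : (A i).G), N • g = 0 := by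
    intro i g
    obtain ⟨r, rfl⟩ := hN i
    rw [mul_comm, mul_nsmul']
    have h2 : (A i).order • g = 0 := card_nsmul_eq_zero
    rw [mul_comm] at *
    rw [h2, smul_zero]
  have key : ∀ c : T.W.H ((nest n A).X.prod Z), IsHodge T _ w c →
      IsSumOfProducts T (nest n A).X Z w c := by
    intro c hc
    refine sum_of_algTensor T hc.2 (algTensor_of_inv T (nest n A)
      (invAlg_nest T n A h.invariants) fun χ hχ => ?_)
    exact comp_eq_zero T (nest n A) (isExt_nest T n A m h hM) (nsmul_nest n A hg) hZ hc.2 hχ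
  rw [nest_X] at key
  exact key c hc

/-- **The Hodge conjecture for the products of the varieties `X_i`.** -/
theorem main_self {n : ℕ} (A : Fin (n + 1) → GVar 𝒱) (m : ∀ i, AddChar (A i).G ℂ → ℤ) {M : ℤ}
    (hM : 0 < M) (h : IsSystem T A m) (hE : IsExtreme A m M) :
    HodgeConjecture T (product n A) := by
  have key : HodgeConjecture T (nest n A).X := by
    intro j c hc
    refine cyc_of_algebraic T hc ?_
    have h1 : eg T (nest n A) 1 (emL T.W ℂ c) = emL T.W ℂ c := by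
      classical
      conv_rhs => rw [← eg_sum T (nest n A) (emL T.W ℂ c)]
      exact (Finset.sum_eq_single_of_mem _ (Finset.mem_univ _) fun χ _ hχ =>
        comp_eq_zero' T (nest n A) hM (isExt_nest T n A m h hE) hc.2 hχ).symm
    rw [← em_avg] at h1
    rw [← em_injective T h1]
    exact invAlg_nest T n A h.invariants _ (avg_inv T (nest n A) c)
  rwa [nest_X] at key

/-- The product of the `X_i` has nonzero cohomology. -/
lemma one_product {n : ℕ} (A : Fin (n + 1) → GVar 𝒱) (h : ∀ i, (1 : T.W.H (A i).X) ≠ 0) :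
    (1 : T.W.H (product n A)) ≠ 0 := by
  rw [← nest_X]
  exact one_nest T n A h

/-- The case of groups of pairwise coprime orders. -/
theorem extreme_of_coprime {n : ℕ} (A : Fin (n + 1) → GVar 𝒱)
    (m : ∀ i, AddChar (A i).G ℂ → ℤ) (M : ℤ) (hM : 0 < M)
    (hcop : ∀ i i', i ≠ i' → (A i).order.Coprime (A i').order)
    (h : ∀ i χ, χ ≠ 1 → ∃ u : ℕ, u.Coprime (A i).order ∧ M ≤ m i (χ ^ u)) : IsExtreme A m M := by
  classical
  intro I hI χ hχ
  have h1 : ∀ i, ∃ u : ℕ, i ∈ I → u.Coprime (A i).order ∧ M ≤ m i (χ i ^ u) := by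
    intro i
    by_cases hi : i ∈ I
    · obtain ⟨u, hu⟩ := h i (χ i) (hχ i hi)
      exact ⟨u, fun _ => hu⟩
    · exact ⟨0, fun h => absurd h hi⟩
  choose u hu using h1
  have hord : ∀ i, (A i).order ≠ 0 := fun i => Fintype.card_ne_zero
  obtain ⟨v, hv⟩ := Nat.chineseRemainderOfFinset u (fun i => (A i).order) I
    (fun i _ => hord i) (fun i _ i' _ hne => hcop i i' hne)
  refine ⟨v, fun i hi => ?_, ?_⟩
  · exact (Nat.ModEq.gcd_eq (hv i hi)).trans (hu i hi).1
  · have h2 : ∀ i ∈ I, M ≤ m i (χ i ^ v) := by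
      intro i hi
      have h3 : χ i ^ v = χ i ^ u i := by
        refine DFunLike.ext _ _ fun g => ?_
        rw [AddChar.pow_apply, AddChar.pow_apply, ← AddChar.map_nsmul_eq_pow,
          ← AddChar.map_nsmul_eq_pow]
        congr 1
        have h4 : (A i).order • g = 0 := card_nsmul_eq_zero
        have h5 : addOrderOf g ∣ (A i).order := addOrderOf_dvd_of_nsmul_eq_zero h4
        exact (nsmul_eq_nsmul_iff_modEq).2 ((hv i hi).of_dvd h5)
      rw [h3]
      exact (hu i hi).2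
    obtain ⟨i₀, hi₀⟩ := hI
    calc M ≤ m i₀ (χ i₀ ^ v) := h2 i₀ hi₀
      _ ≤ ∑ i ∈ I, m i (χ i ^ v) :=
        Finset.single_le_sum (f := fun i => m i (χ i ^ v)) (fun i hi => le_trans hM.le (h2 i hi)) hi₀

/-- **The main theorem.** -/
theorem main {n : ℕ} (A : Fin (n + 1) → GVar 𝒱) (m : ∀ i, AddChar (A i).G ℂ → ℤ) (M : ℤ)
    (hM : 0 < M) (h : IsSystem T A m) (N : ℕ) (hN : ∀ i, (A i).order ∣ N)
    (hE' : IsExtreme A m M) :
    HodgeConjecture T (product n A) ∧
    ∀ Z : 𝒱.Obj, IsOfLevelLess T M Z ∨ IsUnrelated T N M Z →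
      (∀ (w : ℕ) (c : T.W.H ((product n A).prod Z)), IsHodge T _ w c →
        IsSumOfProducts T (product n A) Z w c) ∧
      (HodgeConjecture T ((product n A).prod Z) ↔ HodgeConjecture T Z) := by
  refine ⟨main_self T A m hM h hE', fun Z hZ => ?_⟩
  have hZ' : IsUnrelated T N M Z := hZ.elim (fun h => unrelated_of_level T h N) id
  have h1 := main_sums T A m h hE' hN hZ'
  exact ⟨h1, hodge_of_prod T (one_product T A h.nontrivial), fun h2 => hodge_of_sums T h2 h1⟩

end Pool.Agent.U222.HC.I
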