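import Pool.Agent.U222.HC.Defs1

/-!
# Internal forms of the definitions
-/

set_option autoImplicit false

open CategoryTheory AlgebraicGeometry TensorProduct

universe u

namespace Pool.Agent.U222.HC.I

open Pool.Agent.H914 Pool.Agent.H914.VarClass Pool.Agent.H914.VarClass.Obj Pool.Agent.Y121.AHS

variable {k : Type u} [Field k] {𝒱 : VarClass k} {ops : CycleOps 𝒱}

section actions

variable (T : HodgeTheory ops)

/-- The class `x` is a linear combination of classes of algebraic cycles. -/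
def IsAlgebraic {X : 𝒱.Obj} (x : T.W.H X) : Prop :=
  x ∈ Submodule.span T.W.K {c | ∃ (j : ℕ) (z : X.Cycles), X.IsCyc j z ∧ T.W.cl X z = c}

/-- The classes that are sums of classes of types `(p, q)` with `p - q ≥ m`. -/
noncomputable def above (X : 𝒱.Obj) (m : ℤ) : Submodule ℂ (HL T.W ℂ X) :=
  ⨆ r : {r : ℤ × ℤ // m ≤ r.1 - r.2}, T.pq X r.1.1 r.1.2

/-- The classes that are sums of classes of types `(p, q)` with `p - q ≤ -m`. -/
noncomputable def below (X : 𝒱.Obj) (m : ℤ) : Submodule ℂ (HL T.W ℂ X) :=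
  ⨆ r : {r : ℤ × ℤ // r.1 - r.2 ≤ -m}, T.pq X r.1.1 r.1.2

/-- The class `x` is an eigenvector of the group with the character `χ`. -/
def IsEigenvector (A : GVar 𝒱) (χ : AddChar A.G ℂ) (x : HL T.W ℂ A.X) : Prop :=
  ∀ g, mapL (A.act g) x = smL (χ g) x

/-- Varieties `X_i` with nonzero cohomology and with actions of finite abelian groups `G_i` such that

* the classes in `H(X_i, ℚ)` that are invariant under `G_i` are algebraic;
* for each nontrivial character `χ` of `G_i` the eigenvectors of `G_i` in `H(X_i, ℂ)` with the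
  character `χ` are sums of classes of types `(p, q)` with `p - q ≥ m i χ`. -/
structure IsSystem {n : ℕ} (A : Fin (n + 1) → GVar 𝒱) (m : ∀ i, AddChar (A i).G ℂ → ℤ) : Prop where
  nontrivial : ∀ i, (1 : T.W.H (A i).X) ≠ 0
  invariants : ∀ i (x : T.W.H (A i).X), (∀ g, T.W.map ((A i).act g) x = x) → IsAlgebraic T x
  types : ∀ i χ x, χ ≠ 1 → IsEigenvector T (A i) χ x → x ∈ above T (A i).X (m i χ)

end actions

/-- For all nontrivial characters `χ i` of `G_i`, where `i` runs through a nonempty set `I` of indices,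
there is a number `u`, prime to the orders of the `G_i` with `i ∈ I`, such that the sum of the numbers
`m i (χ i ^ u)` is at least `M`. -/
def IsExtreme {n : ℕ} (A : Fin (n + 1) → GVar 𝒱) (m : ∀ i, AddChar (A i).G ℂ → ℤ) (M : ℤ) :
    Prop :=
  ∀ I : Finset (Fin (n + 1)), I.Nonempty → ∀ χ : ∀ i, AddChar (A i).G ℂ, (∀ i ∈ I, χ i ≠ 1) →
    ∃ u : ℕ, (∀ i ∈ I, u.Coprime (A i).order) ∧ M ≤ ∑ i ∈ I, m i (χ i ^ u)

section substructures

variable (T : HodgeTheory ops)

/-- The subspace `U` of `H(X, ℂ)` is a Hodge substructure of `H(X)` over the field `F = ℚ(e ^ (2πi/N))`: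
it is defined over `F` (stable under the automorphisms of `ℂ` that fix the `N`-th roots of unity),
and all its conjugates `σ U` are spanned by classes of pure types. -/
structure IsSubstructure (N : ℕ) (X : 𝒱.Obj) (U : Submodule ℂ (HL T.W ℂ X)) : Prop where
  rational : ∀ σ : ℂ ≃+* ℂ, (∀ z : ℂ, z ^ N = 1 → σ z = z) → ∀ x ∈ U, conj T σ x ∈ U
  hodge : ∀ σ : ℂ ≃+* ℂ, ∀ x ∈ U, conj T σ x ∈
    Submodule.span ℂ {y | (∃ p q, IsType T.pq p q y) ∧ ∃ x' ∈ U, conj T σ x' = y}

/-- There is no nonzero Hodge substructure of `H(Z)` over the field `ℚ(e ^ (2πi/N))` all of whose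
types `(p, q)` satisfy `p - q ≤ -M`. -/
def IsUnrelated (N : ℕ) (M : ℤ) (Z : 𝒱.Obj) : Prop :=
  ∀ U : Submodule ℂ (HL T.W ℂ Z), IsSubstructure T N Z U → U ≤ below T Z M → U = ⊥

end substructures

/-- The class `c` on `X × Z` is a sum of products of classes of algebraic cycles on `X`, of
codimensions `j t`, and of Hodge classes of degrees `2 (w - j t)` on `Z`. -/
def IsSumOfProducts (T : HodgeTheory ops) (X Z : 𝒱.Obj) (w : ℕ) (c : T.W.H (X.prod Z)) : Prop :=
  ∃ (r : ℕ) (j : Fin r → ℕ) (a : Fin r → X.Cycles) (b : Fin r → T.W.H Z),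
    (∀ t, j t ≤ w ∧ X.IsCyc (j t) (a t) ∧ IsHodge T Z (w - j t) (b t)) ∧
    c = ∑ t, T.W.map (fst X Z) (T.W.cl X (a t)) * T.W.map (snd X Z) (b t)

end Pool.Agent.U222.HC.I
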