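import Mathlib

/-!
# Kunneth formula and Galois action after extension of the coefficients
-/

set_option autoImplicit false

open TensorProduct

namespace Pool.Agent.U222.HC

section

variable {K : Type} (L : Type) [Field K] [Field L] [Algebra K L] {A B C : Type} [Ring A] [Algebra K A]
  [Ring B] [Algebra K B] [Ring C] [Algebra K C] (p : A →ₐ[K] C) (q : B →ₐ[K] C)

/-- The external product after extension of the coefficients. -/
noncomputable def eB : L ⊗[K] A →ₗ[L] L ⊗[K] B →ₗ[L] L ⊗[K] C :=
  (LinearMap.mul L (L ⊗[K] C)).compl₁₂ (p.toLinearMap.baseChange L) (q.toLinearMap.baseChange L)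

lemma eB_apply (x : L ⊗[K] A) (y : L ⊗[K] B) :
    eB L p q x y = (p.toLinearMap.baseChange L x) * (q.toLinearMap.baseChange L y) := rfl

lemma eB_tmul (z w : L) (a : A) (b : B) :
    eB L p q (z ⊗ₜ a) (w ⊗ₜ b) = (z * w) ⊗ₜ (p a * q b) := by
  rw [eB_apply, LinearMap.baseChange_tmul, LinearMap.baseChange_tmul,
    Algebra.TensorProduct.tmul_mul_tmul]
  rfl

lemma eB_lift : (TensorProduct.lift (eB L p q)) ∘ₗ
      (TensorProduct.AlgebraTensorModule.distribBaseChange K L A B).toLinearMap =
    (TensorProduct.lift ((LinearMap.mul K C).compl₁₂ p.toLinearMap q.toLinearMap)).baseChange L := by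
  refine TensorProduct.AlgebraTensorModule.ext fun z t => ?_
  rw [LinearMap.baseChange_tmul]
  induction t using TensorProduct.induction_on with
  | zero => rw [map_zero, tmul_zero, map_zero, tmul_zero]
  | tmul a b =>
    rw [LinearMap.comp_apply, LinearEquiv.coe_coe,
      TensorProduct.AlgebraTensorModule.distribBaseChange_tmul, TensorProduct.lift.tmul, eB_tmul,
      TensorProduct.lift.tmul, mul_one]
    rfl
  | add s t hs ht => rw [tmul_add, map_add, hs, ht, map_add, tmul_add]

lemma eB_bijective (h : Function.Bijective
    (TensorProduct.lift ((LinearMap.mul K C).compl₁₂ p.toLinearMap q.toLinearMap))) :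
    Function.Bijective (TensorProduct.lift (eB L p q)) := by
  have h1 : Function.Bijective
      ((TensorProduct.lift ((LinearMap.mul K C).compl₁₂ p.toLinearMap q.toLinearMap)).baseChange L) := by
    let e := LinearEquiv.ofBijective _ h
    exact (LinearEquiv.baseChange K L _ _ e).bijective
  rw [← eB_lift] at h1
  exact (Function.Bijective.of_comp_iff _
    (TensorProduct.AlgebraTensorModule.distribBaseChange K L A B).bijective).1 h1

lemma bc_mul (x y : L ⊗[K] A) : p.toLinearMap.baseChange L (x * y) =
    p.toLinearMap.baseChange L x * p.toLinearMap.baseChange L y := by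
  induction x using TensorProduct.induction_on with
  | zero => rw [zero_mul, map_zero, zero_mul]
  | tmul w a =>
    induction y using TensorProduct.induction_on with
    | zero => rw [mul_zero, map_zero, mul_zero]
    | tmul w' a' =>
      rw [Algebra.TensorProduct.tmul_mul_tmul, LinearMap.baseChange_tmul,
        LinearMap.baseChange_tmul, LinearMap.baseChange_tmul,
        Algebra.TensorProduct.tmul_mul_tmul]
      congr 1
      exact map_mul p a a'
    | add s t hs ht => rw [mul_add, map_add, hs, ht, map_add, mul_add]
  | add s t hs ht => rw [add_mul, map_add, hs, ht, map_add, add_mul]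

end

section gal

variable {K : Type} [Field K] [Algebra K ℂ] {A B C : Type} [Ring A] [Algebra K A]
  [Ring B] [Algebra K B] [Ring C] [Algebra K C]

/-- An automorphism of the complex numbers as a linear map over the field of the rational
numbers. -/
noncomputable def galK (h : ∀ r : K, ∃ q : ℚ, (q : K) = r) (σ : ℂ ≃+* ℂ) : ℂ →ₗ[K] ℂ where
  toFun z := σ z
  map_add' := map_add _
  map_smul' r z := by
    obtain ⟨q, rfl⟩ := h r
    rw [RingHom.id_apply, Algebra.smul_def, Algebra.smul_def, map_mul, map_ratCast, map_ratCast]

variable (h : ∀ r : K, ∃ q : ℚ, (q : K) = r) (σ : ℂ ≃+* ℂ)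

/-- The action of an automorphism of the complex numbers on the coefficients. -/
noncomputable def galT : ℂ ⊗[K] A →ₗ[K] ℂ ⊗[K] A :=
  TensorProduct.map (galK h σ) LinearMap.id

lemma galT_tmul (z : ℂ) (a : A) : galT h σ (z ⊗ₜ[K] a) = σ z ⊗ₜ a := rfl

lemma galT_smul (z : ℂ) (x : ℂ ⊗[K] A) : galT h σ (z • x) = σ z • galT h σ x := by
  induction x using TensorProduct.induction_on with
  | zero => rw [smul_zero, map_zero, smul_zero]
  | tmul w a => rw [smul_tmul', smul_eq_mul, galT_tmul, galT_tmul, smul_tmul', smul_eq_mul, map_mul]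
  | add s t hs ht => rw [smul_add, map_add, hs, ht, map_add, smul_add]

lemma galT_mul (x y : ℂ ⊗[K] A) : galT h σ (x * y) = galT h σ x * galT h σ y := by
  induction x using TensorProduct.induction_on with
  | zero => rw [zero_mul, map_zero, zero_mul]
  | tmul w a =>
    induction y using TensorProduct.induction_on with
    | zero => rw [mul_zero, map_zero, mul_zero]
    | tmul w' a' =>
      rw [Algebra.TensorProduct.tmul_mul_tmul, galT_tmul, galT_tmul, galT_tmul,
        Algebra.TensorProduct.tmul_mul_tmul, map_mul]
    | add s t hs ht => rw [mul_add, map_add, hs, ht, map_add, mul_add]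
  | add s t hs ht => rw [add_mul, map_add, hs, ht, map_add, add_mul]

lemma galT_map (f : A →ₗ[K] B) (x : ℂ ⊗[K] A) :
    galT h σ (f.baseChange ℂ x) = f.baseChange ℂ (galT h σ x) := by
  induction x using TensorProduct.induction_on with
  | zero => rw [map_zero, map_zero, map_zero]; exact (map_zero _).symm
  | tmul w a => rw [LinearMap.baseChange_tmul, galT_tmul, galT_tmul, LinearMap.baseChange_tmul]
  | add s t hs ht => rw [map_add, map_add, hs, ht, map_add, map_add]

lemma galT_comp (τ : ℂ ≃+* ℂ) (hτ : ∀ z, τ (σ z) = z) (x : ℂ ⊗[K] A) :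
    galT h τ (galT h σ x) = x := by
  induction x using TensorProduct.induction_on with
  | zero => rw [map_zero, map_zero]
  | tmul w a => rw [galT_tmul, galT_tmul, hτ]
  | add s t hs ht => rw [map_add, map_add, hs, ht]

lemma galT_injective : Function.Injective (galT h σ : ℂ ⊗[K] A →ₗ[K] ℂ ⊗[K] A) :=
  Function.LeftInverse.injective (g := galT h σ.symm) fun x =>
    galT_comp h σ σ.symm (fun z => σ.symm_apply_apply z) x

end gal

end Pool.Agent.U222.HC
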