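import Pool.Agent.U222.HC.Int
import Pool.Agent.U222.HC.Ten

/-!
# Linear algebra of the cohomology with complex coefficients
-/

set_option autoImplicit false

open CategoryTheory AlgebraicGeometry TensorProduct

universe u

namespace Pool.Agent.U222.HC.I

open Pool.Agent.H914 Pool.Agent.H914.VarClass Pool.Agent.H914.VarClass.Obj Pool.Agent.Y121.AHS

variable {k : Type u} [Field k] {𝒱 : VarClass k} {ops : CycleOps 𝒱} (T : HodgeTheory ops)

/-- The pull-back, as a linear map. -/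
noncomputable def pl {X Y : 𝒱.Obj} (f : X ⟶ Y) : HL T.W ℂ Y →ₗ[ℂ] HL T.W ℂ X :=
  (T.W.map f).toLinearMap.baseChange ℂ

lemma mapL_eq {X Y : 𝒱.Obj} (f : X ⟶ Y) (x : HL T.W ℂ Y) : mapL f x = pl T f x := rfl

lemma smL_eq {X : 𝒱.Obj} (z : ℂ) (x : HL T.W ℂ X) : smL z x = z • x := rfl

lemma pl_id {X : 𝒱.Obj} (x : HL T.W ℂ X) : pl T (𝟙 X) x = x := by
  have h : (T.W.map (𝟙 X)).toLinearMap = LinearMap.id := by
    refine LinearMap.ext fun a => ?_
    exact T.W.map_id X a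
  show ((T.W.map (𝟙 X)).toLinearMap.baseChange ℂ) _ = _
  rw [h, LinearMap.baseChange_id]
  rfl

lemma pl_comp {X Y Z : 𝒱.Obj} (f : X ⟶ Y) (g : Y ⟶ Z) (x : HL T.W ℂ Z) :
    pl T (f ≫ g) x = pl T f (pl T g x) := by
  have h : (T.W.map (f ≫ g)).toLinearMap = (T.W.map f).toLinearMap ∘ₗ (T.W.map g).toLinearMap := by
    refine LinearMap.ext fun a => ?_
    exact T.W.map_comp f g a
  show ((T.W.map (f ≫ g)).toLinearMap.baseChange ℂ) _ = _
  rw [h, LinearMap.baseChange_comp]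
  rfl

lemma pl_em {X Y : 𝒱.Obj} (f : X ⟶ Y) (a : T.W.H Y) :
    pl T f (emL T.W ℂ a) = emL T.W ℂ (T.W.map f a) := rfl

/-- The external product. -/
noncomputable def eL (X Y : 𝒱.Obj) :
    HL T.W ℂ X →ₗ[ℂ] HL T.W ℂ Y →ₗ[ℂ] HL T.W ℂ (X.prod Y) :=
  eB ℂ (T.W.map (fst X Y)) (T.W.map (snd X Y))

variable {X Y : 𝒱.Obj}

lemma eL_apply (a : HL T.W ℂ X) (b : HL T.W ℂ Y) :
    eL T X Y a b = mulL (mapL (fst X Y) a) (mapL (snd X Y) b) := rfl

lemma eL_em (a : T.W.H X) (b : T.W.H Y) : eL T X Y (emL T.W ℂ a) (emL T.W ℂ b) =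
    emL T.W ℂ (T.W.map (fst X Y) a * T.W.map (snd X Y) b) := by
  have h := eB_tmul ℂ (T.W.map (fst X Y)) (T.W.map (snd X Y)) 1 1 a b
  rw [mul_one] at h
  exact h

lemma kn_bij : Function.Bijective (TensorProduct.lift (eL T X Y)) :=
  eB_bijective ℂ (T.W.map (fst X Y)) (T.W.map (snd X Y)) (T.W.kunneth X Y)

/-- The Kunneth isomorphism with complex coefficients. -/
noncomputable def kn (X Y : 𝒱.Obj) :
    (HL T.W ℂ X ⊗[ℂ] HL T.W ℂ Y) ≃ₗ[ℂ] HL T.W ℂ (X.prod Y) :=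
  LinearEquiv.ofBijective _ (kn_bij T)

lemma kn_tmul (a : HL T.W ℂ X) (b : HL T.W ℂ Y) : kn T X Y (a ⊗ₜ b) = eL T X Y a b :=
  TensorProduct.lift.tmul _ _

lemma kn_symm (a : HL T.W ℂ X) (b : HL T.W ℂ Y) : (kn T X Y).symm (eL T X Y a b) = a ⊗ₜ b := by
  rw [LinearEquiv.symm_apply_eq, kn_tmul]

/-- All classes on a product are sums of external products. -/
lemma kn_ind {P : HL T.W ℂ (X.prod Y) → Prop} (h0 : P 0) (ha : ∀ x y, P x → P y → P (x + y))
    (he : ∀ a b, P (eL T X Y a b)) (x : HL T.W ℂ (X.prod Y)) : P x := by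
  obtain ⟨t, rfl⟩ := (kn T X Y).surjective x
  induction t using TensorProduct.induction_on with
  | zero => rw [map_zero]; exact h0
  | tmul a b => rw [kn_tmul]; exact he a b
  | add s t hs ht => rw [map_add]; exact ha _ _ hs ht

/-- Contraction with a linear form on the cohomology of the first factor. -/
noncomputable def ctr (θ : HL T.W ℂ X →ₗ[ℂ] ℂ) : HL T.W ℂ (X.prod Y) →ₗ[ℂ] HL T.W ℂ Y :=
  (TensorProduct.lid ℂ (HL T.W ℂ Y)).toLinearMap ∘ₗ (TensorProduct.map θ LinearMap.id) ∘ₗ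
    (kn T X Y).symm.toLinearMap

lemma ctr_eL (θ : HL T.W ℂ X →ₗ[ℂ] ℂ) (a : HL T.W ℂ X) (b : HL T.W ℂ Y) :
    ctr T θ (eL T X Y a b) = θ a • b := by
  rw [ctr, LinearMap.comp_apply, LinearMap.comp_apply, LinearEquiv.coe_coe, LinearEquiv.coe_coe,
    kn_symm, TensorProduct.map_tmul, TensorProduct.lid_tmul, LinearMap.id_apply]

/-- An operator on the cohomology of the first factor. -/
noncomputable def op1 (f : HL T.W ℂ X →ₗ[ℂ] HL T.W ℂ X) :
    HL T.W ℂ (X.prod Y) →ₗ[ℂ] HL T.W ℂ (X.prod Y) :=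
  (kn T X Y).toLinearMap ∘ₗ (TensorProduct.map f LinearMap.id) ∘ₗ (kn T X Y).symm.toLinearMap

/-- An operator on the cohomology of the second factor. -/
noncomputable def op2 (f : HL T.W ℂ Y →ₗ[ℂ] HL T.W ℂ Y) :
    HL T.W ℂ (X.prod Y) →ₗ[ℂ] HL T.W ℂ (X.prod Y) :=
  (kn T X Y).toLinearMap ∘ₗ (TensorProduct.map LinearMap.id f) ∘ₗ (kn T X Y).symm.toLinearMap

lemma op1_eL (f : HL T.W ℂ X →ₗ[ℂ] HL T.W ℂ X) (a : HL T.W ℂ X) (b : HL T.W ℂ Y) :
    op1 T f (eL T X Y a b) = eL T X Y (f a) b := by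
  rw [op1, LinearMap.comp_apply, LinearMap.comp_apply, LinearEquiv.coe_coe, LinearEquiv.coe_coe,
    kn_symm, TensorProduct.map_tmul, kn_tmul, LinearMap.id_apply]

lemma op2_eL (f : HL T.W ℂ Y →ₗ[ℂ] HL T.W ℂ Y) (a : HL T.W ℂ X) (b : HL T.W ℂ Y) :
    op2 T f (eL T X Y a b) = eL T X Y a (f b) := by
  rw [op2, LinearMap.comp_apply, LinearMap.comp_apply, LinearEquiv.coe_coe, LinearEquiv.coe_coe,
    kn_symm, TensorProduct.map_tmul, kn_tmul, LinearMap.id_apply]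

lemma lin_ext {V : Type*} [AddCommGroup V] [Module ℂ V] {f g : HL T.W ℂ (X.prod Y) →ₗ[ℂ] V}
    (h : ∀ a b, f (eL T X Y a b) = g (eL T X Y a b)) : f = g := by
  refine LinearMap.ext fun x => ?_
  induction x using kn_ind T with
  | h0 => rw [map_zero, map_zero]
  | ha x y hx hy => rw [map_add, map_add, hx, hy]
  | he a b => exact h a b

lemma ctr_op1 (θ : HL T.W ℂ X →ₗ[ℂ] ℂ) (f : HL T.W ℂ X →ₗ[ℂ] HL T.W ℂ X)
    (x : HL T.W ℂ (X.prod Y)) : ctr T θ (op1 T f x) = ctr T (θ ∘ₗ f) x := by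
  have h : (ctr T θ : HL T.W ℂ (X.prod Y) →ₗ[ℂ] HL T.W ℂ Y) ∘ₗ op1 T f = ctr T (θ ∘ₗ f) :=
    lin_ext T fun a b => by rw [LinearMap.comp_apply, op1_eL, ctr_eL, ctr_eL, LinearMap.comp_apply]
  exact LinearMap.congr_fun h x

lemma ctr_op2 (θ : HL T.W ℂ X →ₗ[ℂ] ℂ) (f : HL T.W ℂ Y →ₗ[ℂ] HL T.W ℂ Y)
    (x : HL T.W ℂ (X.prod Y)) : ctr T θ (op2 T f x) = f (ctr T θ x) := by
  have h : (ctr T θ : HL T.W ℂ (X.prod Y) →ₗ[ℂ] HL T.W ℂ Y) ∘ₗ op2 T f = f ∘ₗ ctr T θ :=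
    lin_ext T fun a b => by
      rw [LinearMap.comp_apply, op2_eL, ctr_eL, LinearMap.comp_apply, ctr_eL, map_smul]
  exact LinearMap.congr_fun h x

/-- A class is zero if all its contractions are zero. -/
lemma eq_zero_of_ctr {x : HL T.W ℂ (X.prod Y)} (h : ∀ θ, ctr T θ x = 0) : x = 0 := by
  have : FiniteDimensional ℂ (HL T.W ℂ X) :=
    (inferInstance : FiniteDimensional ℂ (ℂ ⊗[T.W.K] T.W.H X))
  let b := Module.finBasis ℂ (HL T.W ℂ X)
  have h1 : x = ∑ i, eL T X Y (b i) (ctr T (b.coord i) x) := by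
    have h2 : (LinearMap.id : HL T.W ℂ (X.prod Y) →ₗ[ℂ] HL T.W ℂ (X.prod Y)) =
        ∑ i, (eL T X Y (b i)) ∘ₗ ctr T (b.coord i) := by
      refine lin_ext T fun a c => ?_
      rw [LinearMap.id_apply, LinearMap.sum_apply]
      have h3 : ∀ i, ((eL T X Y (b i)) ∘ₗ ctr T (b.coord i)) (eL T X Y a c) =
          eL T X Y (b.coord i a • b i) c := fun i => by
        rw [LinearMap.comp_apply, ctr_eL, map_smul, map_smul, LinearMap.smul_apply]
      rw [Finset.sum_congr rfl fun i _ => h3 i, ← LinearMap.sum_apply, ← map_sum]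
      congr 2
      exact (b.sum_repr a).symm
    have h4 := LinearMap.congr_fun h2 x
    rw [LinearMap.id_apply, LinearMap.sum_apply] at h4
    exact h4
  rw [h1]
  refine Finset.sum_eq_zero fun i _ => ?_
  rw [h, map_zero]

/-- Linear independence and external products. -/
lemma eq_zero_of_indep {I : Type} [Fintype I] {e : I → HL T.W ℂ X} (he : LinearIndependent ℂ e)
    {y : I → HL T.W ℂ Y} (h : ∑ i, eL T X Y (e i) (y i) = 0) (i : I) : y i = 0 := by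
  classical
  obtain ⟨θ, hθ⟩ : ∃ θ : HL T.W ℂ X →ₗ[ℂ] ℂ, ∀ j, θ (e j) = if j = i then 1 else 0 := by
    obtain ⟨g, hg⟩ := (Fintype.linearCombination ℂ e).exists_leftInverse_of_injective
      (LinearMap.ker_eq_bot.2 (linearIndependent_iff_injective_fintypeLinearCombination.1 he))
    refine ⟨(LinearMap.proj i) ∘ₗ g, fun j => ?_⟩
    have h1 := LinearMap.congr_fun hg (Pi.single j 1)
    rw [LinearMap.comp_apply, Fintype.linearCombination_apply_single, one_smul,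
      LinearMap.id_apply] at h1
    rw [LinearMap.comp_apply, h1, LinearMap.proj_apply, Pi.single_apply]
    congr 1
    exact propext eq_comm
  have h1 := congrArg (ctr T θ) h
  rw [map_zero, map_sum, Finset.sum_congr rfl fun j _ => ctr_eL T θ (e j) (y j),
    Finset.sum_eq_single i (fun j _ hj => by rw [hθ, if_neg hj, zero_smul])
      (fun h => absurd (Finset.mem_univ i) h), hθ, if_pos rfl, one_smul] at h1
  exact h1

end Pool.Agent.U222.HC.I
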