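import Pool.Agent.U222.HC.Sum
import Pool.Agent.Helper475.ExistsRingequivPow

/-!
# Products of varieties with group actions
-/

set_option autoImplicit false

open CategoryTheory AlgebraicGeometry TensorProduct Limits

universe u

namespace Pool.Agent.U222.HC.I

open Pool.Agent.H914 Pool.Agent.H914.VarClass Pool.Agent.H914.VarClass.Obj Pool.Agent.Y121.AHS

variable {k : Type u} [Field k] {𝒱 : VarClass k} {ops : CycleOps 𝒱} (T : HodgeTheory ops)
  {X Y Z W : 𝒱.Obj} (A : GVar 𝒱)

/-- The product of several varieties with group actions. -/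
noncomputable def nest : ∀ (n : ℕ), (Fin (n + 1) → GVar 𝒱) → GVar 𝒱
  | 0, A => A 0
  | n + 1, A => gprod (A 0) (nest n fun i => A i.succ)

lemma nest_X : ∀ (n : ℕ) (A : Fin (n + 1) → GVar 𝒱), (nest n A).X = product n A
  | 0, _ => rfl
  | n + 1, A => by
    show (A 0).X.prod (nest n fun i => A i.succ).X = (A 0).X.prod (product n fun i => A i.succ)
    rw [nest_X n]

/-- The components of a character of the group of a product. -/
noncomputable def cmp : ∀ (n : ℕ) (A : Fin (n + 1) → GVar 𝒱), AddChar (nest n A).G ℂ →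
    ∀ i, AddChar (A i).G ℂ
  | 0, A, χ => Fin.cases (motive := fun i => AddChar (A i).G ℂ) χ fun i => i.elim0
  | n + 1, A, χ => Fin.cases (motive := fun i => AddChar (A i).G ℂ)
      (c1 (A 0) (nest n fun i => A i.succ) χ)
      (cmp n (fun i => A i.succ) (c2 (A 0) (nest n fun i => A i.succ) χ))

lemma cmp_cc (σ : ℂ ≃+* ℂ) : ∀ (n : ℕ) (A : Fin (n + 1) → GVar 𝒱) (χ : AddChar (nest n A).G ℂ)
    (i : Fin (n + 1)), cmp n A (cc σ χ) i = cc σ (cmp n A χ i)
  | 0, A, χ, i => by
    refine Fin.cases ?_ (fun i => i.elim0) i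
    rfl
  | n + 1, A, χ, i => by
    refine Fin.cases ?_ (fun i => ?_) i
    · rfl
    · exact cmp_cc σ n (fun i => A i.succ) (c2 (A 0) (nest n fun i => A i.succ) χ) i

lemma eq_one_of_cmp : ∀ (n : ℕ) (A : Fin (n + 1) → GVar 𝒱) (χ : AddChar (nest n A).G ℂ),
    (∀ i, cmp n A χ i = 1) → χ = 1
  | 0, A, χ, h => h 0
  | n + 1, A, χ, h => by
    have h1 : c1 (A 0) (nest n fun i => A i.succ) χ = 1 := h 0
    have h2 : c2 (A 0) (nest n fun i => A i.succ) χ = 1 :=
      eq_one_of_cmp n (fun i => A i.succ) _ fun i => h i.succ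
    refine DFunLike.ext _ _ fun g => ?_
    obtain ⟨a, b⟩ := g
    have h3 := c_mul (A 0) (nest n fun i => A i.succ) χ a b
    rw [h1, h2, AddChar.one_apply, AddChar.one_apply, one_mul] at h3
    exact h3.trans (AddChar.one_apply _).symm

lemma nsmul_nest {N : ℕ} : ∀ (n : ℕ) (A : Fin (n + 1) → GVar 𝒱),
    (∀ i (g : (A i).G), N • g = 0) → ∀ g : (nest n A).G, N • g = 0
  | 0, _, h, g => h 0 g
  | n + 1, A, h, g => Prod.ext (h 0 g.1) (nsmul_nest n (fun i => A i.succ) (fun i => h i.succ) g.2)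

/-! ### Invariant classes -/

lemma isAlgebraic_xp {a : T.W.H X} {b : T.W.H Y} (ha : IsAlgebraic T a) (hb : IsAlgebraic T b) :
    IsAlgebraic T (xp T a b) := by
  induction ha using Submodule.span_induction with
  | mem a ha =>
    obtain ⟨j, z, hz, rfl⟩ := ha
    induction hb using Submodule.span_induction with
    | mem b hb =>
      obtain ⟨l, y, hy, rfl⟩ := hb
      refine Submodule.subset_span ⟨j + l, ops.mul (ops.pull (fst X Y) z) (ops.pull (snd X Y) y),
        ops.mul_mem (ops.pull_mem _ hz) (ops.pull_mem _ hy), ?_⟩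
      rw [T.W.cl_mul, T.W.cl_pull, T.W.cl_pull]
      rfl
    | zero => rw [xp_zero_right]; exact Submodule.zero_mem _
    | add x y _ _ hx hy => rw [xp_add_right]; exact Submodule.add_mem _ hx hy
    | smul r x _ hx => rw [← xp_smul, xp, map_smul, smul_mul_assoc]; exact Submodule.smul_mem _ _ hx
  | zero => rw [xp, map_zero, zero_mul]; exact Submodule.zero_mem _
  | add x y _ _ hx hy => rw [xp_add_left]; exact Submodule.add_mem _ hx hy
  | smul r x _ hx => rw [xp, map_smul, smul_mul_assoc]; exact Submodule.smul_mem _ _ hx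

/-- The invariant classes are algebraic. -/
def InvAlg : Prop := ∀ x : T.W.H A.X, (∀ g, T.W.map (A.act g) x = x) → IsAlgebraic T x

lemma invAlg_gprod {A B : GVar 𝒱} (hA : InvAlg T A) (hB : InvAlg T B) :
    InvAlg T (gprod A B) := by
  have h : ∀ x : T.W.H (gprod A B).X, IsAlgebraic T (avg T (gprod A B) x) := by
    intro x
    change T.W.H (A.X.prod B.X) at x
    induction x using xp_ind T with
    | h0 => exact (map_zero (avg T (gprod A B))).symm ▸ Submodule.zero_mem _
    | ha x y hx hy =>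
      have h1 := map_add (avg T (gprod A B)) x y
      exact h1.symm ▸ Submodule.add_mem _ hx hy
    | he a b =>
      have h1 : avg T (gprod A B) (xp T a b) = xp T (avg T A a) (avg T B b) := by
        apply em_injective T
        have h3 := eg_prod T A B 1 (emL T.W ℂ a) (emL T.W ℂ b)
        have h4 : c1 A B 1 = 1 := rfl
        have h5 : c2 A B 1 = 1 := rfl
        rw [h4, h5] at h3
        have h6 : eL T A.X B.X (eg T A 1 (emL T.W ℂ a)) (eg T B 1 (emL T.W ℂ b)) =
            emL T.W ℂ (xp T (avg T A a) (avg T B b)) := by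
          rw [em_xp, em_avg, em_avg]
        exact (em_avg T (gprod A B) _).trans
          ((congrArg (eg T (gprod A B) 1) (em_xp T a b)).trans (h3.trans h6))
      rw [h1]
      exact isAlgebraic_xp T (hA _ (avg_inv T A a)) (hB _ (avg_inv T B b))
  intro x hx
  rw [← avg_of_inv T (gprod A B) hx]
  exact h x

lemma invAlg_nest : ∀ (n : ℕ) (A : Fin (n + 1) → GVar 𝒱), (∀ i, InvAlg T (A i)) →
    InvAlg T (nest n A)
  | 0, _, h => h 0
  | n + 1, A, h => invAlg_gprod T (h 0) (invAlg_nest n (fun i => A i.succ) fun i => h i.succ)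

lemma above_of_algebraic {x : T.W.H X} (hx : IsAlgebraic T x) :
    emL T.W ℂ x ∈ above T X 0 := by
  induction hx using Submodule.span_induction with
  | mem a ha =>
    obtain ⟨j, z, hz, rfl⟩ := ha
    refine Submodule.mem_iSup_of_mem ⟨((j : ℤ), (j : ℤ)), ?_⟩ (T.cyc X j z hz).2
    rw [sub_self]
  | zero => rw [em_zero]; exact Submodule.zero_mem _
  | add x y _ _ hx hy => rw [em_add]; exact Submodule.add_mem _ hx hy
  | smul r x _ hx => rw [em_smul]; exact Submodule.smul_mem _ _ hx

lemma eg_one_above (hA : InvAlg T A) (x : HL T.W ℂ A.X) : eg T A 1 x ∈ above T A.X 0 := by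
  change ℂ ⊗[T.W.K] T.W.H A.X at x
  induction x using TensorProduct.induction_on with
  | zero => exact (map_zero (eg T A 1)).symm ▸ Submodule.zero_mem _
  | tmul z a =>
    have h1 : (z ⊗ₜ[T.W.K] a : ℂ ⊗[T.W.K] T.W.H A.X) = z • (emL T.W ℂ a : HL T.W ℂ A.X) := by
      show _ = z • ((1 : ℂ) ⊗ₜ[T.W.K] a)
      rw [TensorProduct.smul_tmul', smul_eq_mul, mul_one]
    have h2 : eg T A 1 (z • emL T.W ℂ a) ∈ above T A.X 0 := by
      rw [map_smul, ← em_avg]
      exact Submodule.smul_mem _ _ (above_of_algebraic T (hA _ (avg_inv T A a)))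
    exact h1 ▸ h2
  | add x y hx hy => exact (map_add (eg T A 1) x y).symm ▸ Submodule.add_mem _ hx hy

/-! ### The types of eigenvectors -/

open Classical in
/-- The types of the eigenvectors on a product. -/
theorem types_nest : ∀ (n : ℕ) (A : Fin (n + 1) → GVar 𝒱) (m : ∀ i, AddChar (A i).G ℂ → ℤ),
    (∀ i, InvAlg T (A i)) →
    (∀ i χ x, χ ≠ 1 → IsEigenvector T (A i) χ x → x ∈ above T (A i).X (m i χ)) →
    ∀ (χ : AddChar (nest n A).G ℂ) (x : HL T.W ℂ (nest n A).X),
      eg T (nest n A) χ x ∈ above T (nest n A).X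
        (∑ i, if cmp n A χ i = 1 then 0 else m i (cmp n A χ i))
  | 0, A, m, hinv, htyp, χ, x => by
    have h1 : (∑ i, if cmp 0 A χ i = 1 then 0 else m i (cmp 0 A χ i)) =
        if χ = 1 then 0 else m 0 χ := by
      rw [Fin.sum_univ_one]
      rfl
    rw [h1]
    by_cases h : χ = 1
    · rw [if_pos h]
      subst h
      exact eg_one_above T (A 0) (hinv 0) x
    · rw [if_neg h]
      exact htyp 0 χ _ h (eg_eigen T (A 0) χ x)
  | n + 1, A, m, hinv, htyp, χ, x => by
    have ih := types_nest n (fun i => A i.succ) (fun i => m i.succ) (fun i => hinv i.succ)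
      (fun i => htyp i.succ) (c2 (A 0) (nest n fun i => A i.succ) χ)
    have h0 : ∀ a, eg T (A 0) (c1 (A 0) (nest n fun i => A i.succ) χ) a ∈ above T (A 0).X
        (if c1 (A 0) (nest n fun i => A i.succ) χ = 1 then 0 else
          m 0 (c1 (A 0) (nest n fun i => A i.succ) χ)) := by
      intro a
      by_cases h : c1 (A 0) (nest n fun i => A i.succ) χ = 1
      · rw [if_pos h, h]
        exact eg_one_above T (A 0) (hinv 0) a
      · rw [if_neg h]
        exact htyp 0 _ _ h (eg_eigen T (A 0) _ a)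
    have h1 : (∑ i, if cmp (n + 1) A χ i = 1 then 0 else m i (cmp (n + 1) A χ i)) =
        (if c1 (A 0) (nest n fun i => A i.succ) χ = 1 then 0 else
          m 0 (c1 (A 0) (nest n fun i => A i.succ) χ)) +
        ∑ i : Fin (n + 1), if cmp n (fun i => A i.succ)
          (c2 (A 0) (nest n fun i => A i.succ) χ) i = 1 then 0 else
          m i.succ (cmp n (fun i => A i.succ) (c2 (A 0) (nest n fun i => A i.succ) χ) i) := by
      rw [Fin.sum_univ_succ]
      rfl
    rw [h1]
    change HL T.W ℂ ((A 0).X.prod (nest n fun i => A i.succ).X) at x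
    induction x using kn_ind T with
    | h0 => exact (map_zero (eg T (nest (n + 1) A) χ)).symm ▸ Submodule.zero_mem _
    | ha x y hx hy =>
      exact (map_add (eg T (nest (n + 1) A) χ) x y).symm ▸ Submodule.add_mem _ hx hy
    | he a b =>
      have h2 := eg_prod T (A 0) (nest n fun i => A i.succ) χ a b
      exact h2.symm ▸ eL_above T (h0 a) (ih b)

lemma above_mono {m m' : ℤ} (h : m ≤ m') : above T X m' ≤ above T X m :=
  iSup_le fun r => le_iSup (fun r : {r : ℤ × ℤ // m ≤ r.1 - r.2} => T.pq X r.1.1 r.1.2)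
    ⟨r.1, h.trans r.2⟩

/-- Automorphisms of `ℂ` acting on roots of unity. -/
lemma exists_aut {N : ℕ} (hN : 0 < N) {u : ℕ} (hu : u.Coprime N) :
    ∃ σ : ℂ ≃+* ℂ, ∀ z : ℂ, z ^ N = 1 → σ z = z ^ u := by
  obtain ⟨σ, hσ⟩ := H475.exists_ringEquiv_pow N hN (Complex.exp (2 * Real.pi * Complex.I / N))
    (Complex.isPrimitiveRoot_exp N hN.ne') u hu
  refine ⟨σ, fun z hz => ?_⟩
  haveI : NeZero N := ⟨hN.ne'⟩
  obtain ⟨i, -, rfl⟩ := (Complex.isPrimitiveRoot_exp N hN.ne').eq_pow_of_pow_eq_one hz
  rw [map_pow, hσ, ← pow_mul, ← pow_mul, mul_comm u i]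

/-- The conjugates of a character with small types. -/
theorem isExt_nest (n : ℕ) (A : Fin (n + 1) → GVar 𝒱) (m : ∀ i, AddChar (A i).G ℂ → ℤ) {M : ℤ}
    (h : IsSystem T A m) (hM : IsExtreme A m M) : IsExt T (nest n A) M := by
  classical
  intro χ hχ
  set I : Finset (Fin (n + 1)) := Finset.univ.filter fun i => cmp n A χ i ≠ 1 with hI
  have hIne : I.Nonempty := by
    by_contra hne
    rw [Finset.not_nonempty_iff_eq_empty, Finset.filter_eq_empty_iff] at hne
    exact hχ (eq_one_of_cmp n A χ fun i => by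
      have h1 := hne (Finset.mem_univ i)
      rwa [not_not] at h1)
  obtain ⟨u, hu, hM⟩ := hM I hIne (cmp n A χ) fun i hi => (Finset.mem_filter.1 hi).2
  have hN : 0 < ∏ i ∈ I, (A i).order := Finset.prod_pos fun i _ => Fintype.card_pos
  obtain ⟨σ, hσ⟩ := exists_aut hN (Nat.Coprime.prod_right hu)
  have h1 : ∀ i, i ∈ I → cc σ (cmp n A χ i) = (cmp n A χ i) ^ u := by
    intro i hi
    refine DFunLike.ext _ _ fun g => ?_
    rw [cc_apply, AddChar.pow_apply]
    refine hσ _ ?_
    obtain ⟨r, hr⟩ := Finset.dvd_prod_of_mem (fun i => (A i).order) hi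
    rw [hr, pow_mul, ← AddChar.map_nsmul_eq_pow]
    have h2 : (A i).order • g = 0 := card_nsmul_eq_zero
    rw [h2, AddChar.map_zero_eq_one, one_pow]
  have h2 : ∀ i, cc σ (cmp n A χ i) = 1 ↔ cmp n A χ i = 1 := by
    intro i
    constructor
    · intro h3
      refine DFunLike.ext _ _ fun g => ?_
      have h4 := DFunLike.congr_fun h3 g
      rw [cc_apply, AddChar.one_apply] at h4
      rw [AddChar.one_apply]
      exact (map_eq_one_iff σ σ.injective).1 h4
    · intro h3
      rw [h3]
      refine DFunLike.ext _ _ fun g => ?_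
      rw [cc_apply, AddChar.one_apply, map_one]
  refine ⟨σ, fun x hx => ?_⟩
  have h3 := types_nest T n A m h.invariants h.types (cc σ χ) x
  rw [eg_of_eigen T _ _ hx] at h3
  refine above_mono T ?_ h3
  refine hM.trans (le_of_eq ?_)
  rw [hI, Finset.sum_filter]
  refine Finset.sum_congr rfl fun i _ => ?_
  rw [cmp_cc]
  by_cases hi : cmp n A χ i = 1
  · rw [if_neg (not_not.2 hi), if_pos ((h2 i).2 hi)]
  · rw [if_pos hi, if_neg (fun h => hi ((h2 i).1 h)),
      h1 i (Finset.mem_filter.2 ⟨Finset.mem_univ i, hi⟩)]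

end Pool.Agent.U222.HC.I
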