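import Pool.Agent.U222.HC.Core

/-!
# Invariant Hodge classes are sums of products
-/

set_option autoImplicit false

open CategoryTheory AlgebraicGeometry TensorProduct Limits

universe u

namespace Pool.Agent.U222.HC.I

open Pool.Agent.H914 Pool.Agent.H914.VarClass Pool.Agent.H914.VarClass.Obj Pool.Agent.Y121.AHS

variable {k : Type u} [Field k] {𝒱 : VarClass k} {ops : CycleOps 𝒱} (T : HodgeTheory ops)
  {X Y Z W : 𝒱.Obj} (A : GVar 𝒱)

lemma em_add (a b : T.W.H X) : emL T.W ℂ (a + b) = emL T.W ℂ a + emL T.W ℂ b :=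
  TensorProduct.tmul_add _ _ _

lemma em_zero : emL T.W ℂ (0 : T.W.H X) = 0 := TensorProduct.tmul_zero _ _

lemma em_smul (r : T.W.K) (a : T.W.H X) :
    emL T.W ℂ (r • a) = algebraMap T.W.K ℂ r • emL T.W ℂ a := by
  show (1 : ℂ) ⊗ₜ[T.W.K] (r • a) = _
  rw [← TensorProduct.smul_tmul, Algebra.smul_def, mul_one]
  show _ = algebraMap T.W.K ℂ r • ((1 : ℂ) ⊗ₜ[T.W.K] a)
  rw [TensorProduct.smul_tmul', smul_eq_mul, mul_one]

/-- Rational classes. -/
noncomputable def emH (X : 𝒱.Obj) : T.W.H X →+ HL T.W ℂ X where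
  toFun := emL T.W ℂ
  map_zero' := em_zero T
  map_add' := em_add T

lemma em_sum {I : Type*} (s : Finset I) (a : I → T.W.H X) :
    emL T.W ℂ (∑ i ∈ s, a i) = ∑ i ∈ s, emL T.W ℂ (a i) := map_sum (emH T X) a s

/-- The mean over the group. -/
noncomputable def avg : T.W.H A.X →ₗ[T.W.K] T.W.H A.X :=
  (Fintype.card A.G : T.W.K)⁻¹ • ∑ g, (T.W.map (A.act g)).toLinearMap

lemma avg_apply (a : T.W.H A.X) :
    avg T A a = (Fintype.card A.G : T.W.K)⁻¹ • ∑ g, T.W.map (A.act g) a := by
  rw [avg, LinearMap.smul_apply, LinearMap.sum_apply]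
  rfl

lemma em_avg (a : T.W.H A.X) : emL T.W ℂ (avg T A a) = eg T A 1 (emL T.W ℂ a) := by
  rw [avg_apply, em_smul, em_sum, eg_apply, map_inv₀, map_natCast]
  congr 1
  refine Finset.sum_congr rfl fun g _ => ?_
  rw [AddChar.one_apply, one_smul, pl_em]

lemma avg_inv (a : T.W.H A.X) (h : A.G) : T.W.map (A.act h) (avg T A a) = avg T A a := by
  apply em_injective T
  rw [← pl_em, em_avg]
  have h1 := eg_eigen T A 1 (emL T.W ℂ a) h
  rw [mapL_eq, smL_eq, AddChar.one_apply, one_smul] at h1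
  exact h1

lemma avg_of_inv {a : T.W.H A.X} (h : ∀ g, T.W.map (A.act g) a = a) : avg T A a = a := by
  apply em_injective T
  rw [em_avg]
  refine eg_of_eigen T A 1 fun g => ?_
  rw [mapL_eq, smL_eq, AddChar.one_apply, one_smul, pl_em, h]

/-- The rational external product. -/
noncomputable def xp (a : T.W.H X) (b : T.W.H Y) : T.W.H (X.prod Y) :=
  T.W.map (fst X Y) a * T.W.map (snd X Y) b

lemma em_xp (a : T.W.H X) (b : T.W.H Y) :
    emL T.W ℂ (xp T a b) = eL T X Y (emL T.W ℂ a) (emL T.W ℂ b) := (eL_em T a b).symm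

/-- Induction on rational classes on a product. -/
lemma xp_ind {P : T.W.H (X.prod Y) → Prop} (h0 : P 0) (ha : ∀ x y, P x → P y → P (x + y))
    (he : ∀ a b, P (xp T a b)) (x : T.W.H (X.prod Y)) : P x := by
  obtain ⟨t, rfl⟩ := (T.W.kunneth X Y).2 x
  induction t using TensorProduct.induction_on with
  | zero => rw [map_zero]; exact h0
  | tmul a b => exact he a b
  | add s t hs ht => rw [map_add]; exact ha _ _ hs ht

/-- The sums of external products with algebraic first factor. -/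
def AlgTensor (c : T.W.H (X.prod Y)) : Prop :=
  c ∈ AddSubmonoid.closure {x | ∃ a b, IsAlgebraic T a ∧ xp T a b = x}

/-- Invariant classes on `A × Z` are sums of products with invariant first factor. -/
lemma algTensor_of_inv (hinv : ∀ x : T.W.H A.X, (∀ g, T.W.map (A.act g) x = x) → IsAlgebraic T x)
    {c : T.W.H (A.X.prod Z)}
    (hc : ∀ χ : AddChar A.G ℂ, χ ≠ 1 → op1 T (eg T A χ) (emL T.W ℂ c) = 0) : AlgTensor T c := by
  classical
  have h1 : op1 T (eg T A 1) (emL T.W ℂ c) = emL T.W ℂ c := by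
    conv_rhs => rw [← op1_eg_sum T A (emL T.W ℂ c)]
    exact (Finset.sum_eq_single_of_mem _ (Finset.mem_univ _) fun χ _ hχ => hc χ hχ).symm
  have h2 : ∀ d : T.W.H (A.X.prod Z), ∃ d', emL T.W ℂ d' = op1 T (eg T A 1) (emL T.W ℂ d) ∧
      AlgTensor T d' := by
    intro d
    induction d using xp_ind T with
    | h0 => exact ⟨0, by rw [em_zero, map_zero], AddSubmonoid.zero_mem _⟩
    | ha x y hx hy =>
      obtain ⟨x', hx, hx'⟩ := hx
      obtain ⟨y', hy, hy'⟩ := hy
      exact ⟨x' + y', by rw [em_add, em_add, map_add, hx, hy], AddSubmonoid.add_mem _ hx' hy'⟩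
    | he a b =>
      refine ⟨xp T (avg T A a) b, ?_, AddSubmonoid.subset_closure
        ⟨avg T A a, b, hinv _ (avg_inv T A a), rfl⟩⟩
      rw [em_xp, em_xp, op1_eL, em_avg]
  obtain ⟨d', hd, hd'⟩ := h2 c
  rw [h1] at hd
  rwa [← em_injective T hd]

lemma xp_add_left (a a' : T.W.H X) (b : T.W.H Y) : xp T (a + a') b = xp T a b + xp T a' b := by
  rw [xp, xp, xp, map_add, add_mul]

lemma xp_add_right (a : T.W.H X) (b b' : T.W.H Y) : xp T a (b + b') = xp T a b + xp T a b' := by
  rw [xp, xp, xp, map_add, mul_add]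

lemma xp_smul (r : T.W.K) (a : T.W.H X) (b : T.W.H Y) : xp T (r • a) b = xp T a (r • b) := by
  rw [xp, xp, map_smul, map_smul, smul_mul_assoc, mul_smul_comm]

lemma xp_zero_right (a : T.W.H X) : xp T a (0 : T.W.H Y) = 0 := by
  rw [xp, map_zero, mul_zero]

/-- A linearly independent family of classes of cycles. -/
lemma exists_family (X : 𝒱.Obj) : ∃ (r : ℕ) (j : Fin r → ℕ) (a : Fin r → X.Cycles),
    (∀ t, X.IsCyc (j t) (a t)) ∧ LinearIndependent T.W.K (fun t => T.W.cl X (a t)) ∧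
      ∀ x : T.W.H X, IsAlgebraic T x → x ∈ Submodule.span T.W.K
        (Set.range fun t => T.W.cl X (a t)) := by
  obtain ⟨b, hb, hspan, hli⟩ := exists_linearIndependent T.W.K
    {c | ∃ (j : ℕ) (z : X.Cycles), X.IsCyc j z ∧ T.W.cl X z = c}
  have hfin : b.Finite := hli.setFinite
  obtain ⟨r, f, hf⟩ : ∃ (r : ℕ) (f : Fin r ≃ b), True := by
    have := hfin.to_subtype
    obtain ⟨r, ⟨f⟩⟩ := Finite.exists_equiv_fin b
    exact ⟨r, f.symm, trivial⟩
  have h1 : ∀ t : Fin r, ∃ (j : ℕ) (z : X.Cycles), X.IsCyc j z ∧ T.W.cl X z = (f t : T.W.H X) :=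
    fun t => hb (f t).2
  choose j a ha hcl using h1
  have h2 : (fun t => T.W.cl X (a t)) = (Subtype.val : b → T.W.H X) ∘ f := funext hcl
  refine ⟨r, j, a, ha, ?_, fun x hx => ?_⟩
  · rw [h2]
    exact hli.comp f f.injective
  · rw [h2, Set.range_comp, f.surjective.range_eq, Set.image_univ, Subtype.range_coe, hspan]
    exact hx

/-- Linear independence after extension of the coefficients. -/
lemma indep_em {I : Type} {e : I → T.W.H X} (he : LinearIndependent T.W.K e) :
    LinearIndependent ℂ (fun i => emL T.W ℂ (e i)) := by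
  classical
  have hs : LinearIndepOn T.W.K id (Set.range e) := he.linearIndepOn_id
  let B := Module.Basis.extend hs
  let B' := B.baseChange ℂ
  have h2 : ∀ i, e i ∈ hs.extend (Set.subset_univ _) := fun i =>
    hs.subset_extend _ (Set.mem_range_self i)
  have h3 : (fun i => emL T.W ℂ (e i)) = B' ∘ fun i => ⟨e i, h2 i⟩ := by
    funext i
    show (1 : ℂ) ⊗ₜ (e i) = B' ⟨e i, h2 i⟩
    rw [Module.Basis.baseChange_apply]
    congr 1
    exact (Module.Basis.extend_apply_self hs ⟨e i, h2 i⟩).symm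
  rw [h3]
  refine B'.linearIndependent.comp _ fun i i' h => ?_
  exact he.injective (Subtype.mk.inj h)

/-- **Hodge classes that are sums of products with algebraic first factor.** -/
theorem sum_of_algTensor {w : ℕ} {c : T.W.H (X.prod Z)}
    (hc : emL T.W ℂ c ∈ T.pq (X.prod Z) w w) (h : AlgTensor T c) : IsSumOfProducts T X Z w c := by
  classical
  obtain ⟨r, j, a, ha, hli, hspan⟩ := exists_family T X
  have h1 : ∃ b : Fin r → T.W.H Z, c = ∑ t, xp T (T.W.cl X (a t)) (b t) := by
    clear hc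
    induction h using AddSubmonoid.closure_induction with
    | mem x hx =>
      obtain ⟨y, b, hy, rfl⟩ := hx
      obtain ⟨ρ, hρ⟩ := (Submodule.mem_span_range_iff_exists_fun T.W.K).1 (hspan y hy)
      refine ⟨fun t => ρ t • b, ?_⟩
      rw [← hρ]
      have h2 : ∀ s : Finset (Fin r), xp T (∑ t ∈ s, ρ t • T.W.cl X (a t)) b =
          ∑ t ∈ s, xp T (T.W.cl X (a t)) (ρ t • b) := by
        intro s
        induction s using Finset.induction_on with
        | empty => rw [Finset.sum_empty, Finset.sum_empty, xp, map_zero, zero_mul]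
        | insert t s ht ih => rw [Finset.sum_insert ht, Finset.sum_insert ht, xp_add_left, ih, xp_smul]
      exact h2 Finset.univ
    | zero =>
      refine ⟨fun _ => 0, ?_⟩
      rw [Finset.sum_congr rfl fun t _ => xp_zero_right T _, Finset.sum_const_zero]
    | add x y _ _ hx hy =>
      obtain ⟨b, rfl⟩ := hx
      obtain ⟨b', rfl⟩ := hy
      refine ⟨fun t => b t + b' t, ?_⟩
      rw [← Finset.sum_add_distrib]
      exact Finset.sum_congr rfl fun t _ => (xp_add_right T _ _ _).symm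
  obtain ⟨b, rfl⟩ := h1
  rw [em_sum, Finset.sum_congr rfl fun t _ => em_xp T (T.W.cl X (a t)) (b t)] at hc
  have htype : ∀ t, emL T.W ℂ (T.W.cl X (a t)) ∈ T.pq X ((j t : ℤ), (j t : ℤ)).1
      ((j t : ℤ), (j t : ℤ)).2 := fun t => (T.cyc X (j t) (a t) (ha t)).2
  have h2 : ∀ t (s : ℤ × ℤ), s ≠ ((w : ℤ) - j t, (w : ℤ) - j t) →
      pr T Z s (emL T.W ℂ (b t)) = 0 := by
    intro t s hs
    have h3 : pr T (X.prod Z) (s + ((j t : ℤ), (j t : ℤ)))
        (∑ t, eL T X Z (emL T.W ℂ (T.W.cl X (a t))) (emL T.W ℂ (b t))) = 0 := by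
      rw [pr_of_mem T (s := ((w : ℤ), (w : ℤ))) _ hc, if_neg]
      intro h
      apply hs
      have e1 := congrArg Prod.fst h
      have e2 := congrArg Prod.snd h
      simp only [Prod.fst_add, Prod.snd_add] at e1 e2
      exact Prod.ext (by simp only; omega) (by simp only; omega)
    rw [map_sum, Finset.sum_congr rfl fun t' _ => pr_eL T (htype t') _ _] at h3
    have h4 := eq_zero_of_indep T (indep_em T hli) h3 t
    rw [add_sub_cancel_right] at h4
    exact h4
  have h3 : ∀ t, emL T.W ℂ (b t) ∈ T.pq Z ((w : ℤ) - j t) ((w : ℤ) - j t) := fun t =>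
    mem_of_pr T (s := ((w : ℤ) - j t, (w : ℤ) - j t)) (h2 t)
  have h4 : ∀ t, ¬ j t ≤ w → b t = 0 := by
    intro t ht
    apply em_injective T
    rw [em_zero, ← pr_same T (r := ((w : ℤ) - j t, (w : ℤ) - j t)) (h3 t)]
    refine pr_neg T ?_ _
    show (w : ℤ) - j t + (w - j t) < 0
    omega
  refine ⟨r, fun t => if j t ≤ w then j t else 0, fun t => if j t ≤ w then a t else 0, b,
    fun t => ?_, ?_⟩
  · beta_reduce
    by_cases ht : j t ≤ w
    · rw [if_pos ht, if_pos ht]
      refine ⟨ht, ha t, isHodge_of_type T ?_⟩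
      have h5 := h3 t
      have h6 : ((w - j t : ℕ) : ℤ) = (w : ℤ) - j t := by push_cast [ht]; ring
      rw [h6]
      exact h5
    · rw [if_neg ht, if_neg ht, h4 t ht]
      refine ⟨Nat.zero_le _, SmVar.IsCyc.zero _ _, isHodge_of_type T ?_⟩
      rw [em_zero]
      exact Submodule.zero_mem _
  · refine Finset.sum_congr rfl fun t _ => ?_
    beta_reduce
    by_cases ht : j t ≤ w
    · rw [if_pos ht]
      rfl
    · rw [h4 t ht, xp_zero_right, map_zero, mul_zero]

end Pool.Agent.U222.HC.I
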