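import Pool.Agent.U222.HC.Lay

/-!
# The projections to the spaces of classes of pure type
-/

set_option autoImplicit false

open CategoryTheory AlgebraicGeometry TensorProduct

universe u

namespace Pool.Agent.U222.HC.I

open Pool.Agent.H914 Pool.Agent.H914.VarClass Pool.Agent.H914.VarClass.Obj Pool.Agent.Y121.AHS

variable {k : Type u} [Field k] {𝒱 : VarClass k} {ops : CycleOps 𝒱} (T : HodgeTheory ops)
  {X Y : 𝒱.Obj}

lemma grL_top (X : 𝒱.Obj) : ⨆ i, grL T.W ℂ X i = ⊤ := by
  rw [eq_top_iff]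
  intro x hx
  clear hx
  change ℂ ⊗[T.W.K] T.W.H X at x
  induction x using TensorProduct.induction_on with
  | zero => exact Submodule.zero_mem _
  | tmul z a =>
    have ha : a ∈ ⨆ i, T.W.gr X i := by
      rw [(T.W.isInternal X).submodule_iSup_eq_top]
      exact Submodule.mem_top
    induction ha using Submodule.iSup_induction' with
    | mem i a ha =>
      refine Submodule.mem_iSup_of_mem i ?_
      exact Submodule.tmul_mem_baseChange_of_mem z ha
    | zero =>
      rw [tmul_zero]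
      exact Submodule.zero_mem _
    | add a b _ _ ha hb =>
      rw [tmul_add]
      exact Submodule.add_mem _ ha hb
  | add x y hx hy => exact Submodule.add_mem _ hx hy

lemma types_top (X : 𝒱.Obj) : ⨆ r : ℤ × ℤ, T.pq X r.1 r.2 = ⊤ := by
  rw [eq_top_iff, ← grL_top T X]
  refine iSup_le fun i => ?_
  rw [T.span X i]
  exact iSup_le fun r => le_iSup (fun r : ℤ × ℤ => T.pq X r.1 r.2) r.1

lemma types_internal (X : 𝒱.Obj) : DirectSum.IsInternal fun r : ℤ × ℤ => T.pq X r.1 r.2 :=
  (DirectSum.isInternal_submodule_iff_iSupIndep_and_iSup_eq_top _).2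
    ⟨T.indep X, types_top T X⟩

/-- Induction on classes. -/
lemma ty_ind {P : HL T.W ℂ X → Prop} (h0 : P 0) (ha : ∀ x y, P x → P y → P (x + y))
    (he : ∀ (r : ℤ × ℤ) x, x ∈ T.pq X r.1 r.2 → P x) (x : HL T.W ℂ X) : P x := by
  have hx : x ∈ ⨆ r : ℤ × ℤ, T.pq X r.1 r.2 := by
    rw [types_top T X]
    exact Submodule.mem_top
  induction hx using Submodule.iSup_induction' with
  | mem r x hx => exact he r x hx
  | zero => exact h0
  | add x y _ _ hx hy => exact ha x y hx hy

/-- Induction on classes on a product. -/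
lemma kt_ind {P : HL T.W ℂ (X.prod Y) → Prop} (h0 : P 0) (ha : ∀ x y, P x → P y → P (x + y))
    (he : ∀ (r s : ℤ × ℤ) a b, a ∈ T.pq X r.1 r.2 → b ∈ T.pq Y s.1 s.2 → P (eL T X Y a b))
    (x : HL T.W ℂ (X.prod Y)) : P x := by
  refine kn_ind T h0 ha (fun a b => ?_) x
  induction a using ty_ind T with
  | h0 => rw [map_zero, LinearMap.zero_apply]; exact h0
  | ha x y hx hy => rw [map_add, LinearMap.add_apply]; exact ha _ _ hx hy
  | he r a h1 =>
    induction b using ty_ind T with
    | h0 => rw [map_zero]; exact h0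
    | ha x y hx hy => rw [map_add]; exact ha _ _ hx hy
    | he s b h2 => exact he r s a b h1 h2

/-- The projection to the classes of type `r`. -/
noncomputable def pr (X : 𝒱.Obj) (r : ℤ × ℤ) : HL T.W ℂ X →ₗ[ℂ] HL T.W ℂ X :=
  (T.pq X r.1 r.2).subtype ∘ₗ
    (DirectSum.component ℂ (ℤ × ℤ) (fun r => T.pq X r.1 r.2) r) ∘ₗ
    (LinearEquiv.ofBijective (DirectSum.coeLinearMap fun r : ℤ × ℤ => T.pq X r.1 r.2)
      (types_internal T X)).symm.toLinearMap

lemma pr_mem (r : ℤ × ℤ) (x : HL T.W ℂ X) : pr T X r x ∈ T.pq X r.1 r.2 := by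
  rw [pr, LinearMap.comp_apply]
  exact Submodule.coe_mem _

lemma pr_of_mem {s : ℤ × ℤ} (r : ℤ × ℤ) {x : HL T.W ℂ X} (hx : x ∈ T.pq X s.1 s.2) :
    pr T X r x = if s = r then x else 0 := by
  classical
  rw [pr, LinearMap.comp_apply, LinearMap.comp_apply, LinearEquiv.coe_coe]
  have h : (LinearEquiv.ofBijective (DirectSum.coeLinearMap fun r : ℤ × ℤ => T.pq X r.1 r.2)
      (types_internal T X)).symm x = DirectSum.lof ℂ (ℤ × ℤ) (fun r => T.pq X r.1 r.2) s ⟨x, hx⟩ := by
    rw [LinearEquiv.symm_apply_eq, LinearEquiv.ofBijective_apply, DirectSum.coeLinearMap_lof]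
  rw [h]
  split_ifs with h1
  · subst h1
    rw [DirectSum.component.lof_self]
    rfl
  · rw [DirectSum.component.of, dif_neg h1, map_zero]

lemma pr_same {r : ℤ × ℤ} {x : HL T.W ℂ X} (hx : x ∈ T.pq X r.1 r.2) : pr T X r x = x := by
  rw [pr_of_mem T r hx, if_pos rfl]

/-- A class is the sum of its components. -/
lemma pr_sum (x : HL T.W ℂ X) : ∃ S : Finset (ℤ × ℤ), (∀ r, r ∉ S → pr T X r x = 0) ∧
    x = ∑ r ∈ S, pr T X r x := by
  classical
  induction x using ty_ind T with
  | h0 => exact ⟨∅, fun r _ => map_zero _, rfl⟩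
  | ha x y hx hy =>
    obtain ⟨S, hS, hx⟩ := hx
    obtain ⟨S', hS', hy⟩ := hy
    refine ⟨S ∪ S', fun r hr => ?_, ?_⟩
    · rw [Finset.mem_union, not_or] at hr
      rw [map_add, hS r hr.1, hS' r hr.2, add_zero]
    · have h1 : ∑ r ∈ S ∪ S', pr T X r x = x := by
        conv_rhs => rw [hx]
        exact (Finset.sum_subset Finset.subset_union_left fun r _ hr => hS r hr).symm
      have h2 : ∑ r ∈ S ∪ S', pr T X r y = y := by
        conv_rhs => rw [hy]
        exact (Finset.sum_subset Finset.subset_union_right fun r _ hr => hS' r hr).symm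
      rw [Finset.sum_congr rfl fun r _ => map_add (pr T X r) x y, Finset.sum_add_distrib, h1, h2]
  | he r x hx =>
    refine ⟨{r}, fun s hs => ?_, ?_⟩
    · rw [pr_of_mem T s hx, if_neg]
      rintro rfl
      exact hs (Finset.mem_singleton_self _)
    · rw [Finset.sum_singleton, pr_same T hx]

/-- A class is zero if its components are zero. -/
lemma eq_of_pr {x : HL T.W ℂ X} (h : ∀ r, pr T X r x = 0) : x = 0 := by
  obtain ⟨S, -, hx⟩ := pr_sum T x
  rw [hx]
  exact Finset.sum_eq_zero fun r _ => h r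

/-- If all components except one are zero, the class is of pure type. -/
lemma mem_of_pr {x : HL T.W ℂ X} {s : ℤ × ℤ} (h : ∀ r, r ≠ s → pr T X r x = 0) :
    x ∈ T.pq X s.1 s.2 := by
  classical
  obtain ⟨S, h0, hx⟩ := pr_sum T x
  have h1 : x = pr T X s x := by
    conv_lhs => rw [hx]
    by_cases hs : s ∈ S
    · exact Finset.sum_eq_single_of_mem s hs fun r _ hr => h r hr
    · rw [h0 s hs]
      exact Finset.sum_eq_zero fun r hr => h r fun h2 => hs (h2 ▸ hr)
  rw [h1]
  exact pr_mem T s x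

/-- Types of external products. -/
lemma eL_mem {r s : ℤ × ℤ} {a : HL T.W ℂ X} {b : HL T.W ℂ Y} (ha : a ∈ T.pq X r.1 r.2)
    (hb : b ∈ T.pq Y s.1 s.2) : eL T X Y a b ∈ T.pq (X.prod Y) (r + s).1 (r + s).2 := by
  rw [eL_apply]
  exact T.mul _ _ _ _ _ _ _ (T.map _ _ _ _ _ _ ha) (T.map _ _ _ _ _ _ hb)

/-- For a class of pure type on a product the components for the two factors agree. -/
lemma op_pr {t : ℤ × ℤ} {x : HL T.W ℂ (X.prod Y)} (hx : x ∈ T.pq (X.prod Y) t.1 t.2)
    (s : ℤ × ℤ) : op2 T (pr T Y s) x = op1 T (pr T X (t - s)) x := by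
  have h : ∀ y : HL T.W ℂ (X.prod Y), op2 T (pr T Y s) (pr T (X.prod Y) t y) =
      op1 T (pr T X (t - s)) (pr T (X.prod Y) t y) := by
    intro y
    induction y using kt_ind T with
    | h0 => rw [map_zero, map_zero, map_zero]
    | ha x y hx hy => rw [map_add, map_add, map_add, hx, hy]
    | he r s' a b ha hb =>
      rw [pr_of_mem T t (eL_mem T ha hb)]
      split_ifs with h1
      · rw [op2_eL, op1_eL, pr_of_mem T s hb, pr_of_mem T (t - s) ha]
        by_cases h2 : s' = s
        · subst h2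
          rw [if_pos rfl, if_pos (eq_sub_of_add_eq h1)]
        · rw [if_neg h2, if_neg, map_zero, map_zero, LinearMap.zero_apply]
          intro h3
          rw [h3] at h1
          exact h2 (by rw [sub_add_eq_add_sub] at h1; exact (add_left_cancel
            (a := t) (by rw [sub_eq_iff_eq_add] at h1; exact h1)))
      · rw [map_zero, map_zero]
  have h1 := h x
  rw [pr_same T hx] at h1
  exact h1

/-- Components of an external product with a class of pure type. -/
lemma pr_eL {j : ℤ × ℤ} {a : HL T.W ℂ X} (ha : a ∈ T.pq X j.1 j.2) (r : ℤ × ℤ)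
    (b : HL T.W ℂ Y) : pr T (X.prod Y) r (eL T X Y a b) = eL T X Y a (pr T Y (r - j) b) := by
  induction b using ty_ind T with
  | h0 => rw [map_zero, map_zero, map_zero, map_zero]
  | ha x y hx hy => rw [map_add, map_add, map_add, map_add, hx, hy]
  | he s b hb =>
    rw [pr_of_mem T r (eL_mem T ha hb), pr_of_mem T (r - j) hb]
    by_cases h : j + s = r
    · rw [if_pos h, if_pos (eq_sub_of_add_eq' h)]
    · rw [if_neg h, if_neg (fun h' => h (by rw [h']; abel)), map_zero]

lemma mem_above {m : ℤ} {x : HL T.W ℂ X} :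
    x ∈ above T X m ↔ ∀ r : ℤ × ℤ, ¬ m ≤ r.1 - r.2 → pr T X r x = 0 := by
  constructor
  · intro hx r hr
    have h : above T X m ≤ LinearMap.ker (pr T X r) := by
      refine iSup_le fun s y hy => ?_
      rw [LinearMap.mem_ker, pr_of_mem T r hy, if_neg]
      rintro rfl
      exact hr s.2
    exact h hx
  · intro h
    obtain ⟨S, -, hx⟩ := pr_sum T x
    rw [hx]
    refine Submodule.sum_mem _ fun r _ => ?_
    by_cases hr : m ≤ r.1 - r.2
    · exact Submodule.mem_iSup_of_mem ⟨r, hr⟩ (pr_mem T r x)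
    · rw [h r hr]
      exact Submodule.zero_mem _

lemma mem_below {m : ℤ} {x : HL T.W ℂ X} :
    x ∈ below T X m ↔ ∀ r : ℤ × ℤ, ¬ r.1 - r.2 ≤ -m → pr T X r x = 0 := by
  constructor
  · intro hx r hr
    have h : below T X m ≤ LinearMap.ker (pr T X r) := by
      refine iSup_le fun s y hy => ?_
      rw [LinearMap.mem_ker, pr_of_mem T r hy, if_neg]
      rintro rfl
      exact hr s.2
    exact h hx
  · intro h
    obtain ⟨S, -, hx⟩ := pr_sum T x
    rw [hx]
    refine Submodule.sum_mem _ fun r _ => ?_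
    by_cases hr : r.1 - r.2 ≤ -m
    · exact Submodule.mem_iSup_of_mem ⟨r, hr⟩ (pr_mem T r x)
    · rw [h r hr]
      exact Submodule.zero_mem _

/-- Products of classes above `m` and `m'`. -/
lemma eL_above {m m' : ℤ} {a : HL T.W ℂ X} {b : HL T.W ℂ Y} (ha : a ∈ above T X m)
    (hb : b ∈ above T Y m') : eL T X Y a b ∈ above T (X.prod Y) (m + m') := by
  induction ha using Submodule.iSup_induction' with
  | mem r a ha =>
    induction hb using Submodule.iSup_induction' with
    | mem s b hb =>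
      refine Submodule.mem_iSup_of_mem ⟨r.1 + s.1, ?_⟩ (eL_mem T ha hb)
      have h1 := r.2
      have h2 := s.2
      show m + m' ≤ (r.1.1 + s.1.1) - (r.1.2 + s.1.2)
      linarith
    | zero => rw [map_zero]; exact Submodule.zero_mem _
    | add x y _ _ hx hy => rw [map_add]; exact Submodule.add_mem _ hx hy
  | zero => rw [map_zero, LinearMap.zero_apply]; exact Submodule.zero_mem _
  | add x y _ _ hx hy => rw [map_add, LinearMap.add_apply]; exact Submodule.add_mem _ hx hy

/-- A class of type `(w, w)` above a positive number is zero. -/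
lemma eq_zero_of_above {m : ℤ} (hm : 0 < m) {w : ℤ} {x : HL T.W ℂ X} (hx : x ∈ T.pq X w w)
    (h : x ∈ above T X m) : x = 0 := by
  have h1 := (mem_above T).1 h (w, w) (by show ¬ m ≤ w - w; rw [sub_self]; exact not_le.2 hm)
  rw [pr_same T (r := (w, w)) hx] at h1
  exact h1

/-- Types with negative total degree do not occur. -/
lemma pr_neg {r : ℤ × ℤ} (hr : r.1 + r.2 < 0) (x : HL T.W ℂ X) : pr T X r x = 0 := by
  have h : (⊤ : Submodule ℂ (HL T.W ℂ X)) ≤ LinearMap.ker (pr T X r) := by
    rw [← grL_top T X]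
    refine iSup_le fun i => ?_
    rw [T.span X i]
    refine iSup_le fun s y hy => ?_
    rw [LinearMap.mem_ker, pr_of_mem T r hy, if_neg]
    intro h
    have h1 := s.2
    rw [h] at h1
    rw [h1] at hr
    exact absurd hr (not_lt.2 (Int.natCast_nonneg i))
  exact h Submodule.mem_top

/-- Membership of rational classes in extended subspaces. -/
lemma mem_of_em {p : Submodule T.W.K (T.W.H X)} {a : T.W.H X}
    (h : emL T.W ℂ a ∈ (extSub T.W.K ℂ p : Submodule ℂ (HL T.W ℂ X))) : a ∈ p := by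
  by_contra ha
  obtain ⟨f, hf, hp⟩ := Submodule.exists_le_ker_of_notMem ha
  have h1 : (p.baseChange ℂ) ≤ LinearMap.ker (f.baseChange ℂ) := by
    rw [Submodule.baseChange_eq_span, Submodule.span_le]
    rintro _ ⟨b, hb, rfl⟩
    rw [SetLike.mem_coe, LinearMap.mem_ker]
    show (f.baseChange ℂ) ((1 : ℂ) ⊗ₜ b) = 0
    rw [LinearMap.baseChange_tmul, LinearMap.mem_ker.1 (hp hb), tmul_zero]
  have h2 : (f.baseChange ℂ) ((1 : ℂ) ⊗ₜ a) = 0 := h1 h
  rw [LinearMap.baseChange_tmul] at h2
  have h3 := congrArg (TensorProduct.rid T.W.K ℂ) h2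
  rw [TensorProduct.rid_tmul, map_zero, Algebra.smul_def, mul_one] at h3
  exact hf ((map_eq_zero _).1 h3)

lemma em_injective : Function.Injective (emL T.W ℂ : T.W.H X → HL T.W ℂ X) := by
  intro a b h
  have h1 : emL T.W ℂ (a - b) ∈ (extSub T.W.K ℂ (⊥ : Submodule T.W.K (T.W.H X)) :
      Submodule ℂ (HL T.W ℂ X)) := by
    have h2 : emL T.W ℂ (a - b) = emL T.W ℂ a - emL T.W ℂ b := TensorProduct.tmul_sub _ _ _
    rw [h2, h, sub_self]
    exact Submodule.zero_mem _
  have h3 := mem_of_em T h1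
  rw [Submodule.mem_bot] at h3
  exact sub_eq_zero.1 h3

/-- A rational class with pure type `(v, v)` is a Hodge class. -/
lemma isHodge_of_type {v : ℕ} {b : T.W.H X} (h : emL T.W ℂ b ∈ T.pq X v v) : IsHodge T X v b := by
  refine ⟨?_, h⟩
  have h1 : emL T.W ℂ b ∈ grL T.W ℂ X (2 * v) := by
    rw [T.span X (2 * v)]
    refine Submodule.mem_iSup_of_mem ⟨((v : ℤ), (v : ℤ)), ?_⟩ h
    push_cast
    ring
  exact mem_of_em T h1

end Pool.Agent.U222.HC.I
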